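import Pool.Agent.Hp428.LS.Main

set_option autoImplicit false

/-!
# Zeta near height `T`: the two sides of the critical line
-/

namespace Pool.Agent.H875.HD

open Complex Filter Topology Set
open Pool.Agent.H24R2.JP (XX HH Om be zetaS stir)
open Pool.Agent.Hp428.LS (UBm ub_all HH_pos XX_left XX_sym)
open Pool.Agent.W186.LH (Ex)
open scoped ComplexConjugate

/-- zeta near height `T`, turned around: `u = 0` is the point `1/2 + iT`, the left half plane is on the right -/
noncomputable def g (T : ℝ) (u : ℂ) : ℂ := riemannZeta (1 / 2 + I * T - u)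

theorem fe_right : ∃ K T0 : ℝ, 1 ≤ K ∧ 400 ≤ T0 ∧ ∀ T : ℝ, T0 ≤ T → ∃ (X0 : ℂ) (l : ℝ), ‖X0‖ = 1 ∧
    |l - Real.log T| ≤ K ∧ ∀ u : ℂ, ‖u‖ ≤ 50 → ∃ E : ℂ, ‖E‖ ≤ K / T ∧
      g T u = X0 * cexp (l * u) * conj (riemannZeta (1 / 2 + I * T + conj u)) * (1 + E) := by
  obtain ⟨-, K, T1, hK, hT1, h⟩ := stir
  refine ⟨4 * K, max 400 (max T1 (2 * K)), by linarith, le_max_left _ _, fun T hT => ?_⟩
  have g1 : T1 ≤ T := ((le_max_left _ _).trans (le_max_right _ _)).trans hT
  have g2 : 2 * K ≤ T := ((le_max_right _ _).trans (le_max_right _ _)).trans hT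
  have g3 : 400 ≤ T := (le_max_left _ _).trans hT
  have hT0 : 0 < T := by linarith
  obtain ⟨hne, hbe, hst⟩ := h T g1
  have hKT : K / T ≤ 1 / 2 := by rw [div_le_iff₀ hT0]; linarith
  have hKT0 : 0 < K / T := by positivity
  refine ⟨conj (HH (I * T)) / HH (I * T), 2 * (be T).re, ?_, ?_, ?_⟩
  · rw [norm_div, Complex.norm_conj, div_self (norm_ne_zero_iff.2 hne)]
  · have h1 := (abs_re_le_norm (be T - (Om T : ℂ))).trans hbe
    rw [sub_re, ofReal_re] at h1
    have : 2 * (be T).re - Real.log T = 2 * ((be T).re - Om T) := by unfold Om; ring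
    rw [this, abs_mul, abs_two]
    linarith
  · intro u hu
    have h1 := hst (conj u) (by rwa [Complex.norm_conj])
    have h2 := hst (-u) (by rwa [norm_neg])
    obtain ⟨A1, hA1⟩ : ∃ A1, A1 = HH (I * T) * cexp (be T * conj u) := ⟨_, rfl⟩
    obtain ⟨A2, hA2⟩ : ∃ A2, A2 = HH (I * T) * cexp (be T * -u) := ⟨_, rfl⟩
    rw [← hA1] at h1
    rw [← hA2] at h2
    have n1 : A1 ≠ 0 := by rw [hA1]; exact mul_ne_zero hne (Complex.exp_ne_zero _)
    have n2 : A2 ≠ 0 := by rw [hA2]; exact mul_ne_zero hne (Complex.exp_ne_zero _)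
    obtain ⟨E1, hE1⟩ : ∃ E1, E1 = (HH (I * T + conj u) - A1) / A1 := ⟨_, rfl⟩
    obtain ⟨E2, hE2⟩ : ∃ E2, E2 = (HH (I * T + -u) - A2) / A2 := ⟨_, rfl⟩
    have m1 : HH (I * T + conj u) = A1 * (1 + E1) := by rw [hE1]; field_simp; ring
    have m2 : HH (I * T + -u) = A2 * (1 + E2) := by rw [hE2]; field_simp; ring
    have b1 : ‖E1‖ ≤ K / T := by
      rw [hE1, norm_div, div_le_iff₀ (norm_pos_iff.2 n1)]; exact h1
    have b2 : ‖E2‖ ≤ K / T := by
      rw [hE2, norm_div, div_le_iff₀ (norm_pos_iff.2 n2)]; exact h2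
    have him : ∀ v : ℂ, ‖v‖ ≤ 50 → 0 < (I * T + v).im := by
      intro v hv
      have := (abs_le.1 ((abs_im_le_norm v).trans hv)).1
      simp
      linarith
    have z1 := zetaS.1 (I * T + conj u) (him _ (by rwa [Complex.norm_conj]))
    have z2 := zetaS.1 (I * T + -u) (him _ (by rwa [norm_neg]))
    have hs : XX (I * T + -u) = conj (XX (I * T + conj u)) := by
      rw [← XX_sym]
      congr 1
      simp
      ring
    have n12 : (1 + E2) ≠ 0 := by
      intro h0
      have : E2 = -1 := by linear_combination h0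
      rw [this, norm_neg, norm_one] at b2
      linarith
    have lo : 1 / 2 ≤ ‖1 + E2‖ := by
      have := norm_sub_norm_le (1 : ℂ) (-E2)
      rw [norm_one, norm_neg, sub_neg_eq_add] at this
      linarith
    refine ⟨(conj E1 - E2) / (1 + E2), ?_, ?_⟩
    · rw [norm_div, div_le_iff₀ (by linarith)]
      have : ‖conj E1 - E2‖ ≤ K / T + K / T := by
        refine (norm_sub_le _ _).trans ?_
        rw [Complex.norm_conj]
        linarith
      have e : 4 * K / T = 4 * (K / T) := by ring
      rw [e]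
      nlinarith
    · have e1 : (1 + (conj E1 - E2) / (1 + E2)) = (1 + conj E1) / (1 + E2) := by field_simp; ring
      rw [e1]
      unfold g
      have e2 : (1 / 2 + I * (T : ℂ) - u) = 1 / 2 + (I * T + -u) := by ring
      have e3 : (1 / 2 + I * (T : ℂ) + conj u) = 1 / 2 + (I * T + conj u) := by ring
      rw [e2, e3]
      have e4 : riemannZeta (1 / 2 + (I * T + -u)) = XX (I * T + -u) / HH (I * T + -u) := by
        rw [z2, mul_div_cancel_left₀]
        rw [m2]
        exact mul_ne_zero n2 n12
      rw [e4, hs, z1, map_mul, m1, m2, map_mul, hA1, hA2, map_mul, ← Complex.exp_conj, map_mul,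
        Complex.conj_conj, map_add, map_one]
      have e5 : cexp (((2 * (be T).re : ℝ) : ℂ) * u) = cexp (conj (be T) * u) * cexp (be T * u) := by
        rw [← Complex.exp_add]
        congr 1
        have : ((2 * (be T).re : ℝ) : ℂ) = be T + conj (be T) := by
          rw [Complex.add_conj]
        rw [this]; ring
      have e6 : cexp (be T * -u) = (cexp (be T * u))⁻¹ := by
        rw [← Complex.exp_neg]; congr 1; ring
      rw [e5, e6]
      have n3 := Complex.exp_ne_zero (be T * u)
      field_simp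

/-- the exponent of `g` -/
noncomputable def P (b x : ℝ) : ℝ := (max |x| b + x) / 2

lemma P_mono {b x y : ℝ} (h : x ≤ y) : P b x ≤ P b y := by
  unfold P
  have : max |x| b + x ≤ max |y| b + y := by
    rcases le_total |x| b with h1 | h1
    · rw [max_eq_right h1]
      have := le_max_right |y| b
      linarith
    · rw [max_eq_left h1]
      rcases le_total 0 x with h2 | h2
      · rw [abs_of_nonneg h2]
        have := le_max_left |y| b
        have := le_abs_self y
        linarith
      · rw [abs_of_nonpos h2]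
        have := le_max_left |y| b
        have := neg_abs_le y
        linarith
  linarith

lemma P_right {b x : ℝ} (hb : 0 ≤ b) (h : b ≤ x) : P b x = x := by
  unfold P
  rw [abs_of_nonneg (hb.trans h), max_eq_left h]
  ring

lemma P_nonneg {b x : ℝ} : 0 ≤ P b x := by
  unfold P
  have := le_max_left |x| b
  have := neg_abs_le x
  linarith

end Pool.Agent.H875.HD
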