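import Pool.Agent.H875.HD.Lower

set_option autoImplicit false

/-!
# Entire functions with the zeros of the derivatives of zeta
-/

namespace Pool.Agent.H875.HD

open Complex Filter Topology Set Metric
open Pool.Agent.W186.LH (Ex)
open scoped ComplexConjugate

/-- `(s - 1) ^ (n + 1) ζ^(n)(s)` -/
noncomputable def W : ℕ → ℂ → ℂ
  | 0 => ZU.J_g2b.FF
  | n + 1 => fun s => (s - 1) * deriv (W n) s - ((n : ℂ) + 1) * W n s

lemma W_diff (n : ℕ) : Differentiable ℂ (W n) := by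
  induction n with
  | zero => exact ZU.J_g2b.FF_diff
  | succ n ih =>
    have h1 : Differentiable ℂ (deriv (W n)) := fun s => (ih.analyticAt s).deriv.differentiableAt
    unfold W
    exact ((differentiable_id.sub_const 1).mul h1).sub (ih.const_mul _)

lemma zd_an (n : ℕ) {s : ℂ} (hs : s ≠ 1) : AnalyticAt ℂ (iteratedDeriv n riemannZeta) s := by
  have h : DifferentiableOn ℂ riemannZeta {s : ℂ | s ≠ 1} := fun w hw =>
    (differentiableAt_riemannZeta hw).differentiableWithinAt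
  have h1 : AnalyticAt ℂ riemannZeta s := h.analyticAt (isOpen_ne.mem_nhds hs)
  induction n with
  | zero => rw [iteratedDeriv_zero]; exact h1
  | succ n ih => rw [iteratedDeriv_succ]; exact ih.deriv

lemma W_eq (n : ℕ) {s : ℂ} (hs : s ≠ 1) : W n s = (s - 1) ^ (n + 1) * iteratedDeriv n riemannZeta s := by
  induction n generalizing s with
  | zero =>
    rw [iteratedDeriv_zero, zero_add, pow_one]
    exact ZU.J_g2b.FF_ne hs
  | succ n ih =>
    have h1 : W n =ᶠ[𝓝 s] fun w => (w - 1) ^ (n + 1) * iteratedDeriv n riemannZeta w := by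
      filter_upwards [isOpen_ne.mem_nhds hs] with w hw
      exact ih hw
    have h2 : HasDerivAt (fun w : ℂ => (w - 1) ^ (n + 1)) (((n + 1 : ℕ) : ℂ) * (s - 1) ^ n * 1) s := by
      have := ((hasDerivAt_id s).sub_const 1).fun_pow (n + 1)
      simpa using this
    have h3 : HasDerivAt (iteratedDeriv n riemannZeta) (iteratedDeriv (n + 1) riemannZeta s) s := by
      rw [iteratedDeriv_succ]
      exact (zd_an n hs).differentiableAt.hasDerivAt
    have h4 := (h2.mul h3).congr_of_eventuallyEq h1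
    show (s - 1) * deriv (W n) s - ((n : ℂ) + 1) * W n s = _
    rw [h4.deriv, ih hs]
    push_cast
    ring

lemma W_ord (n : ℕ) {s : ℂ} (hs : s ≠ 1) :
    analyticOrderNatAt (W n) s = analyticOrderNatAt (iteratedDeriv n riemannZeta) s := by
  have h1 : W n =ᶠ[𝓝 s] fun w => (w - 1) ^ (n + 1) * iteratedDeriv n riemannZeta w := by
    filter_upwards [isOpen_ne.mem_nhds hs] with w hw
    exact W_eq n hw
  unfold analyticOrderNatAt
  rw [analyticOrderAt_congr h1]
  have h2 : AnalyticAt ℂ (fun w : ℂ => (w - 1) ^ (n + 1)) s := by fun_prop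
  have h3 := analyticOrderAt_mul h2 (zd_an n hs)
  have h4 : analyticOrderAt (fun w : ℂ => (w - 1) ^ (n + 1)) s = 0 := by
    rw [h2.analyticOrderAt_eq_zero]
    exact pow_ne_zero _ (sub_ne_zero.2 hs)
  have h5 : (fun w : ℂ => (w - 1) ^ (n + 1) * iteratedDeriv n riemannZeta w) =
      (fun w : ℂ => (w - 1) ^ (n + 1)) * iteratedDeriv n riemannZeta := rfl
  rw [h5, h3, h4, zero_add]

lemma g_iter (T : ℝ) (n : ℕ) (u : ℂ) :
    iteratedDeriv n (g T) u = (-1) ^ n * iteratedDeriv n riemannZeta (1 / 2 + I * T - u) := by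
  have := congrFun (iteratedDeriv_comp_const_sub n riemannZeta (1 / 2 + I * (T : ℂ))) u
  rw [smul_eq_mul] at this
  exact this

lemma g_iter_norm (T : ℝ) (n : ℕ) (u : ℂ) :
    ‖iteratedDeriv n (g T) u‖ = ‖iteratedDeriv n riemannZeta (1 / 2 + I * T - u)‖ := by
  rw [g_iter, norm_mul, norm_pow, norm_neg, norm_one, one_pow, one_mul]

/-- the normalised entire function at height `T` -/
noncomputable def F (T : ℝ) (n : ℕ) (u : ℂ) : ℂ :=
  W n (-1 * u + (1 / 2 + I * T)) *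
    (((I * (T : ℂ)) ^ (n + 1) * (Real.log T : ℂ) ^ n)⁻¹ * cexp (-(Real.log T : ℂ) * u))

lemma F_diff (T : ℝ) (n : ℕ) : Differentiable ℂ (F T n) := by
  unfold F
  have h1 : Differentiable ℂ fun u : ℂ => W n (-1 * u + (1 / 2 + I * T)) :=
    (W_diff n).comp (by fun_prop)
  exact h1.mul (by fun_prop)

lemma F_norm {T : ℝ} (hT : 50 < T) (n : ℕ) {u : ℂ} (hu : ‖u‖ ≤ 50) (hL : 0 < Real.log T) :
    ‖F T n u‖ = ‖(I * T - 1 / 2 - u) / (I * T)‖ ^ (n + 1) *
      (‖iteratedDeriv n (g T) u‖ / (Real.log T ^ n * Real.exp (Real.log T * u.re))) := by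
  unfold F
  have e : (-1 * u + (1 / 2 + I * T)) = (1 / 2 + I * (T : ℂ) - u) := by ring
  have hT0 : (I * (T : ℂ)) ≠ 0 := by
    apply mul_ne_zero I_ne_zero
    have : T ≠ 0 := by linarith
    exact_mod_cast this
  have e2 : (I * (T : ℂ) - 1 / 2 - u) = (1 / 2 + I * (T : ℂ) - u) - 1 := by ring
  rw [e, W_eq n (g_at hT hu), g_iter_norm, e2]
  simp only [norm_mul, norm_inv, norm_pow, norm_div, Complex.norm_exp]
  have e3 : (-(Real.log T : ℂ) * u).re = -(Real.log T * u.re) := by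
    rw [← Complex.ofReal_neg, Complex.re_ofReal_mul]; ring
  have e4 : ‖(Real.log T : ℂ)‖ = Real.log T := by
    rw [Complex.norm_real, Real.norm_of_nonneg hL.le]
  rw [e3, e4, Real.exp_neg, div_pow]
  have h5 : ‖I‖ * ‖(T : ℂ)‖ ≠ 0 := by rw [← norm_mul]; exact norm_ne_zero_iff.2 hT0
  have h6 := hL.ne'
  have h7 := (Real.exp_pos (Real.log T * u.re)).ne'
  have h8 : (‖I‖ * ‖(T : ℂ)‖) ^ (n + 1) = ‖I‖ ^ (n + 1) * ‖(T : ℂ)‖ ^ (n + 1) := mul_pow _ _ _
  field_simp

/-- the factor is harmless -/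
lemma fac_near : ∃ T0 : ℝ, 400 ≤ T0 ∧ ∀ T : ℝ, T0 ≤ T → ∀ n : ℕ, (n : ℝ) ≤ 2 * Real.log T →
    ∀ u : ℂ, ‖u‖ ≤ 50 → 1 / 2 ≤ ‖(I * T - 1 / 2 - u) / (I * T)‖ ^ (n + 1) ∧
      ‖(I * T - 1 / 2 - u) / (I * T)‖ ^ (n + 1) ≤ 2 := by
  have hev : ∀ᶠ T : ℝ in atTop, (2 * Real.log T + 1) * (51 / T) ≤ 1 / 2 := by
    have h3 : Tendsto (fun T : ℝ => Real.log T / T) atTop (𝓝 0) :=
      Real.isLittleO_log_id_atTop.tendsto_div_nhds_zero
    have h4 : Tendsto (fun T : ℝ => 102 * (Real.log T / T) + 51 * T⁻¹) atTop (𝓝 0) := by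
      have := (h3.const_mul 102).add (tendsto_inv_atTop_zero.const_mul 51)
      simpa using this
    filter_upwards [h4.eventually_le_const (show (0 : ℝ) < 1 / 2 by norm_num)] with T hT
    refine le_trans (le_of_eq ?_) hT
    rw [div_eq_mul_inv, div_eq_mul_inv]
    ring
  obtain ⟨T1, hT1⟩ := eventually_atTop.1 hev
  refine ⟨max T1 400, le_max_right _ _, ?_⟩
  intro T hT n hn u hu
  have hsm := hT1 T ((le_max_left _ _).trans hT)
  have h400 : 400 ≤ T := (le_max_right _ _).trans hT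
  have hT0 : 0 < T := by linarith
  have hx0 : 0 ≤ 51 / T := by positivity
  obtain ⟨x, hx⟩ : ∃ x, x = 51 / T := ⟨_, rfl⟩
  rw [← hx] at hsm hx0
  have hnx : ((n + 1 : ℕ) : ℝ) * x ≤ 1 / 2 := by
    refine le_trans ?_ hsm
    apply mul_le_mul_of_nonneg_right _ hx0
    push_cast
    linarith
  have hIT : (I * (T : ℂ)) ≠ 0 := by
    apply mul_ne_zero I_ne_zero
    exact_mod_cast hT0.ne'
  have hdist : ‖(I * T - 1 / 2 - u) / (I * T) - 1‖ ≤ x := by
    have e : (I * T - 1 / 2 - u) / (I * T) - 1 = -(1 / 2 + u) / (I * T) := by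
      rw [div_sub_one hIT]; congr 1; ring
    rw [e, norm_div, norm_neg, norm_mul, norm_I, one_mul, Complex.norm_real, Real.norm_of_nonneg hT0.le, hx]
    gcongr
    refine (norm_add_le _ _).trans ?_
    have : ‖(1 / 2 : ℂ)‖ ≤ 1 := by norm_num
    linarith
  have hx12 : x ≤ 1 / 2 := by
    have h1 : (1 : ℝ) ≤ ((n + 1 : ℕ) : ℝ) := by push_cast; have := Nat.cast_nonneg (α := ℝ) n; linarith
    nlinarith
  have hlo : 1 - x ≤ ‖(I * T - 1 / 2 - u) / (I * T)‖ := by
    have h1 := norm_sub_norm_le (1 : ℂ) (1 - (I * T - 1 / 2 - u) / (I * T))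
    rw [norm_one, sub_sub_cancel, norm_sub_rev 1] at h1
    linarith
  have hhi : ‖(I * T - 1 / 2 - u) / (I * T)‖ ≤ 1 + x := by
    have h1 := norm_add_le ((I * T - 1 / 2 - u) / (I * T) - 1) (1 : ℂ)
    rw [norm_one, sub_add_cancel] at h1
    linarith
  constructor
  · have h1 := one_add_mul_le_pow (a := -x) (by linarith) (n + 1)
    have h2 : (1 + -x) ^ (n + 1) ≤ ‖(I * T - 1 / 2 - u) / (I * T)‖ ^ (n + 1) :=
      pow_le_pow_left₀ (by linarith) (by linarith) _
    refine le_trans ?_ (h1.trans h2)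
    linarith
  · calc ‖(I * T - 1 / 2 - u) / (I * T)‖ ^ (n + 1) ≤ (Real.exp x) ^ (n + 1) := by
          apply pow_le_pow_left₀ (norm_nonneg _)
          have := Real.add_one_le_exp x
          linarith
      _ = Real.exp (((n + 1 : ℕ) : ℝ) * x) := by rw [← Real.exp_nat_mul]
      _ ≤ Real.exp (1 / 2) := Real.exp_le_exp.2 hnx
      _ ≤ 2 := by
          have h1 : Real.exp (1 / 2) ^ 2 = Real.exp 1 := by rw [← Real.exp_nat_mul]; norm_num
          have h2 := Real.exp_one_lt_d9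
          have h3 := Real.exp_pos (1 / 2 : ℝ)
          nlinarith

lemma F_zero {T : ℝ} (hT : 50 < T) (n : ℕ) {u : ℂ} (hu : ‖u‖ ≤ 50) :
    F T n u = 0 ↔ iteratedDeriv n riemannZeta (1 / 2 + I * T - u) = 0 := by
  unfold F
  have e : (-1 * u + (1 / 2 + I * T)) = (1 / 2 + I * (T : ℂ) - u) := by ring
  have hL : 0 < Real.log T := Real.log_pos (by linarith)
  have hT0 : (I * (T : ℂ)) ≠ 0 := by
    apply mul_ne_zero I_ne_zero
    have : T ≠ 0 := by linarith
    exact_mod_cast this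
  have hL0 : (Real.log T : ℂ) ≠ 0 := by exact_mod_cast hL.ne'
  rw [e, W_eq n (g_at hT hu)]
  have h1 : ((1 / 2 + I * (T : ℂ) - u) - 1) ^ (n + 1) ≠ 0 :=
    pow_ne_zero _ (sub_ne_zero.2 (g_at hT hu))
  have h2 : ((I * (T : ℂ)) ^ (n + 1) * (Real.log T : ℂ) ^ n)⁻¹ * cexp (-(Real.log T : ℂ) * u) ≠ 0 :=
    mul_ne_zero (inv_ne_zero (mul_ne_zero (pow_ne_zero _ hT0) (pow_ne_zero _ hL0))) (Complex.exp_ne_zero _)
  constructor
  · intro h
    rcases mul_eq_zero.1 h with h | h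
    · rcases mul_eq_zero.1 h with h | h
      · exact absurd h h1
      · exact h
    · exact absurd h h2
  · intro h
    rw [h, mul_zero, zero_mul]

lemma F_ord {T : ℝ} (hT : 50 < T) (n : ℕ) {u : ℂ} (hu : ‖u‖ ≤ 50) (hne : ∃ s, W n s ≠ 0) {a : ℂ} (ha : a ≠ 0)
    {w : ℂ} (hw : a * w = u) :
    analyticOrderNatAt (fun w => F T n (a * w)) w =
      analyticOrderNatAt (iteratedDeriv n riemannZeta) (1 / 2 + I * T - u) := by
  have hL : 0 < Real.log T := Real.log_pos (by linarith)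
  have hT0 : (I * (T : ℂ)) ≠ 0 := by
    apply mul_ne_zero I_ne_zero
    have : T ≠ 0 := by linarith
    exact_mod_cast this
  have hL0 : (Real.log T : ℂ) ≠ 0 := by exact_mod_cast hL.ne'
  have h := Pool.Agent.Hp428.LS.ord_tr (G := W n)
    (E := fun w => ((I * (T : ℂ)) ^ (n + 1) * (Real.log T : ℂ) ^ n)⁻¹ * cexp (-(Real.log T : ℂ) * (a * w)))
    (W_diff n) hne (a := -a) (neg_ne_zero.2 ha) (b := 1 / 2 + I * T) (by fun_prop)
    (fun w => mul_ne_zero (inv_ne_zero (mul_ne_zero (pow_ne_zero _ hT0) (pow_ne_zero _ hL0)))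
      (Complex.exp_ne_zero _)) w
  have e : -a * w + (1 / 2 + I * T) = (1 / 2 + I * (T : ℂ) - u) := by rw [← hw]; ring
  rw [e, W_ord n (g_at hT hu)] at h
  rw [← h]
  congr 1
  funext v
  unfold F
  congr 2
  ring

end Pool.Agent.H875.HD
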