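import Pool.Agent.H875.HD.SabL

set_option autoImplicit false

/-!
# The Lindelöf hypothesis and the zeros of the derivatives of high order
-/

namespace Pool.Agent.H875.HD

open Complex Filter Topology Set Metric
open Pool.Agent.W186.LH (Ex plr)
open Pool.Agent.Hp428.LS (ex_big)
open scoped ComplexConjugate

/-- few zeros of the derivatives on the left of the critical line -/
def FewLeft (a : ℝ) : Prop := ∀ δ ε : ℝ, 0 < δ → 0 < ε → ∃ T0 : ℝ, ∀ T : ℝ, T0 ≤ T → ∀ n : ℕ,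
  a * Real.log T ≤ n → (n : ℝ) ≤ Real.log T / 2 → ∀ S : Finset ℂ,
  (∀ s ∈ S, iteratedDeriv n riemannZeta s = 0 ∧ |s.im - T| ≤ 1 ∧ 0 ≤ s.re ∧ s.re ≤ 1 / 2 - δ) →
    ∑ s ∈ S, (analyticOrderNatAt (iteratedDeriv n riemannZeta) s : ℝ) ≤ ε * Real.log T

/-- the size of the derivatives on the critical line -/
def LineBd (a : ℝ) : Prop := ∀ ε : ℝ, 0 < ε → ∃ T0 : ℝ, ∀ T : ℝ, T0 ≤ T → ∀ n : ℕ,
  a * Real.log T ≤ n → (n : ℝ) ≤ Real.log T / 2 →
    ‖iteratedDeriv n riemannZeta (1 / 2 + I * T)‖ ≤ Real.log T ^ n * T ^ ε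

/-- the common consequence -/
def Bd (a : ℝ) : Prop := ∀ ε : ℝ, 0 < ε → ∃ η T0 : ℝ, 0 ≤ η ∧ η ≤ ε ∧ ∀ T : ℝ, T0 ≤ T → ∀ n : ℕ,
  a * Real.log T ≤ n → (n : ℝ) ≤ Real.log T →
    ‖iteratedDeriv n (g T) (η : ℂ)‖ ≤ Real.log T ^ n * Real.exp (Real.log T * (η + ε))

lemma ex_mono {ρ x : ℝ} (hρ : 0 < ρ) (hρ2 : ρ ≤ 1 / 2) (hx : ρ ≤ x) (hx50 : x ≤ 50) (h : Ex (1 / 2 + ρ) 0) :
    Ex (1 / 2 + x) 0 := by
  refine ex_of_g (by linarith) hx50 fun ε hε => ?_
  obtain ⟨T0, -, h1⟩ := gup hρ hρ2 h ε hε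
  refine ⟨T0, fun T hT => ?_⟩
  have h2 := h1 T hT (x : ℂ) (by rw [Complex.norm_real, Real.norm_of_nonneg (by linarith)]; exact hx50)
  rwa [Complex.ofReal_re, P_right hρ.le hx] at h2

lemma P_mid {b x : ℝ} (h : |x| ≤ b) : P b x = (b + x) / 2 := by
  unfold P
  rw [max_eq_right h]

lemma ex_closed {x : ℝ} (hx : 0 ≤ x) (hx2 : x ≤ 1 / 2) (h : ∀ ε : ℝ, 0 < ε → ∃ ρ : ℝ, x ≤ ρ ∧ 0 < ρ ∧ ρ ≤ 1 / 2 ∧
    ρ ≤ x + ε ∧ Ex (1 / 2 + ρ) 0) : Ex (1 / 2 + x) 0 := by
  refine ex_of_g hx (by linarith) fun ε hε => ?_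
  obtain ⟨ρ, h1, h2, h3, h4, h5⟩ := h ε hε
  obtain ⟨T0, hT0, h6⟩ := gup h2 h3 h5 (ε / 2) (by linarith)
  refine ⟨T0, fun T hT => ?_⟩
  have h7 := h6 T hT (x : ℂ) (by rw [Complex.norm_real, Real.norm_of_nonneg hx]; linarith)
  refine h7.trans (Real.exp_le_exp.2 ?_)
  rw [Complex.ofReal_re, P_mid (by rw [abs_of_nonneg hx]; exact h1)]
  have hL : 0 ≤ Real.log T := Real.log_nonneg (by linarith)
  apply mul_le_mul_of_nonneg_left _ hL
  linarith

lemma log_large (B : ℝ) : ∃ T0 : ℝ, 500 ≤ T0 ∧ ∀ T : ℝ, T0 ≤ T → B ≤ Real.log T := by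
  refine ⟨max 500 (Real.exp B), le_max_left _ _, fun T hT => ?_⟩
  have h1 : 500 ≤ T := (le_max_left _ _).trans hT
  rw [Real.le_log_iff_exp_le (by linarith)]
  exact (le_max_right _ _).trans hT

/-- one step -/
lemma step {a r1 : ℝ} (ha : 0 < a) (hr : 2 * a < r1) (hr2 : r1 ≤ 1 / 2) (hEx : Ex (1 / 2 + r1) 0) (hB : Bd a) :
    ∃ x : ℝ, 2 * a < x ∧ x < r1 ∧ Ex (1 / 2 + x) 0 := by
  have hr0 : 0 < r1 := by linarith
  obtain ⟨D, hD⟩ : ∃ D : ℝ, D = r1 / 2 - a - a * Real.log (r1 / (2 * a)) := ⟨_, rfl⟩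
  have hy : 1 < r1 / (2 * a) := by rw [lt_div_iff₀ (by linarith)]; linarith
  have hD0 : 0 < D := by
    have h1 := Real.log_lt_sub_one_of_pos (show (0 : ℝ) < r1 / (2 * a) by positivity) hy.ne'
    have h2 : a * Real.log (r1 / (2 * a)) < a * (r1 / (2 * a) - 1) := mul_lt_mul_of_pos_left h1 ha
    have h3 : a * (r1 / (2 * a) - 1) = r1 / 2 - a := by field_simp
    rw [hD]; linarith
  have hlog0 : 0 < Real.log (r1 / (2 * a)) := Real.log_pos hy
  have hD1 : D ≤ r1 / 2 - a := by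
    rw [hD]
    have : 0 ≤ a * Real.log (r1 / (2 * a)) := by positivity
    linarith
  refine ⟨r1 - D / 4, by linarith, by linarith, ?_⟩
  refine ex_of_g (by linarith) (by linarith) fun ε hε => ?_
  obtain ⟨e, he⟩ : ∃ e : ℝ, e = min (ε / 2) (min D ((r1 - 2 * a) / 4)) := ⟨_, rfl⟩
  have he0 : 0 < e := by rw [he]; exact lt_min (by linarith) (lt_min hD0 (by linarith))
  have he1 : e ≤ ε / 2 := by rw [he]; exact min_le_left _ _
  have he2 : e ≤ D := by rw [he]; exact (min_le_right _ _).trans (min_le_left _ _)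
  have he3 : e ≤ (r1 - 2 * a) / 4 := by rw [he]; exact (min_le_right _ _).trans (min_le_right _ _)
  obtain ⟨η, T1, hη0, hηe, h1⟩ := hB e he0
  obtain ⟨T2, hT2, h2⟩ := gup hr0 hr2 hEx e he0
  have hev : ∀ᶠ T : ℝ in atTop, Real.log T + 4 ≤ Real.exp (Real.log T * (ε / 2)) := by
    have h3 : ∀ᶠ x : ℝ in atTop, x + 4 ≤ Real.exp (x * (ε / 2)) := by
      have h4 : Tendsto (fun x : ℝ => Real.exp x / x ^ 1) atTop atTop := Real.tendsto_exp_div_pow_atTop 1
      have h5 : Tendsto (fun x : ℝ => x * (ε / 2)) atTop atTop := tendsto_id.atTop_mul_const (by linarith)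
      filter_upwards [(h4.comp h5).eventually_ge_atTop (2 / (ε / 2)), eventually_ge_atTop 4] with x hx hx4
      simp only [Function.comp, pow_one] at hx
      rw [div_le_div_iff₀ (by linarith) (by nlinarith)] at hx
      have e5 : 2 * (x * (ε / 2)) = (2 * x) * (ε / 2) := by ring
      rw [e5] at hx
      have := le_of_mul_le_mul_right hx (by linarith)
      linarith
    exact Real.tendsto_log_atTop.eventually h3
  obtain ⟨T3, hT3⟩ := eventually_atTop.1 hev
  refine ⟨max (max T1 T2) T3, fun T hT => ?_⟩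
  have g1 : T1 ≤ T := ((le_max_left _ _).trans (le_max_left _ _)).trans hT
  have g2 : T2 ≤ T := ((le_max_right _ _).trans (le_max_left _ _)).trans hT
  have g3 := hT3 T ((le_max_right _ _).trans hT)
  have hL : 0 < Real.log T := Real.log_pos (by linarith)
  obtain ⟨x, hx⟩ : ∃ x, x = r1 - D / 4 := ⟨_, rfl⟩
  have ht := tay (r1 := r1) (T := T) (L := Real.log T) (a := a) (η := η) (x := x) (ρ' := 2 * a) (ε := e)
    hr0 hr2 (by linarith) hL (h2 T g2) (h1 T g1) hη0 (by linarith) (by linarith) (by rw [hx]; linarith)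
    (by rw [hx]; linarith) (by
      rw [P_mid (by rw [abs_of_nonneg (by linarith)]; linarith)]
      have h3 : Real.log ((x - η) / (2 * a)) ≤ Real.log (r1 / (2 * a)) := by
        apply Real.log_le_log
        · apply div_pos _ (by linarith)
          rw [hx]; linarith
        · gcongr
          rw [hx]; linarith
      have h4 : a * Real.log ((x - η) / (2 * a)) ≤ a * Real.log (r1 / (2 * a)) :=
        mul_le_mul_of_nonneg_left h3 ha.le
      have h5 : a * Real.log (r1 / (2 * a)) = r1 / 2 - a - D := by rw [hD]; ring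
      linarith)
  rw [← hx]
  refine ht.trans ?_
  calc (Real.log T + 4) * Real.exp (Real.log T * (x + e))
      ≤ Real.exp (Real.log T * (ε / 2)) * Real.exp (Real.log T * (x + e)) :=
        mul_le_mul_of_nonneg_right g3 (Real.exp_pos _).le
    _ = Real.exp (Real.log T * (ε / 2 + (x + e))) := by rw [← Real.exp_add]; congr 1; ring
    _ ≤ _ := by
        apply Real.exp_le_exp.2
        apply mul_le_mul_of_nonneg_left _ hL.le
        linarith

/-- iteration -/
theorem ex_of_bd {a r : ℝ} (ha : 0 < a) (hr : 2 * a < r) (hr2 : r ≤ 1 / 2) (hB : Bd a) : Ex (1 / 2 + r) 0 := by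
  obtain ⟨A, hA⟩ : ∃ A : Set ℝ, A = {x : ℝ | 2 * a < x ∧ x ≤ 1 / 2 ∧ Ex (1 / 2 + x) 0} := ⟨_, rfl⟩
  have hhalf : (1 / 2 : ℝ) ∈ A := by
    rw [hA]
    exact ⟨by linarith, le_rfl, ex_big le_rfl⟩
  have hbdd : BddBelow A := ⟨2 * a, fun x hx => by rw [hA] at hx; exact hx.1.le⟩
  have hi2 : 2 * a ≤ sInf A := le_csInf ⟨_, hhalf⟩ fun x hx => by rw [hA] at hx; exact hx.1.le
  have hi12 : sInf A ≤ 1 / 2 := csInf_le hbdd hhalf
  have hnear : ∀ ε : ℝ, 0 < ε → ∃ x ∈ A, x < sInf A + ε := fun ε hε =>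
    exists_lt_of_csInf_lt ⟨_, hhalf⟩ (by linarith)
  have hle : sInf A ≤ 2 * a := by
    by_contra hcon
    push Not at hcon
    have hEx : Ex (1 / 2 + sInf A) 0 := by
      refine ex_closed (by linarith) hi12 fun ε hε => ?_
      obtain ⟨x, hxA, hx⟩ := hnear ε hε
      have h1 : sInf A ≤ x := csInf_le hbdd hxA
      rw [hA] at hxA
      exact ⟨x, h1, by linarith [hxA.1], hxA.2.1, hx.le, hxA.2.2⟩
    obtain ⟨x, h1, h2, h3⟩ := step ha hcon hi12 hEx hB
    have hxA : x ∈ A := by rw [hA]; exact ⟨h1, by linarith, h3⟩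
    have := csInf_le hbdd hxA
    linarith
  obtain ⟨x, hxA, hx⟩ := hnear (r - sInf A) (by linarith)
  rw [hA] at hxA
  exact ex_mono (by linarith [hxA.1]) hxA.2.1 (by linarith) (by linarith) hxA.2.2

lemma rpow_exp {T ε : ℝ} (hT : 0 < T) : T ^ ε = Real.exp (Real.log T * ε) := by
  rw [Real.rpow_def_of_pos hT]

/-- from the line to the common consequence -/
lemma bd_of_line {a : ℝ} (ha : 0 < a) (h : LineBd a) : Bd a := by
  intro ε hε
  obtain ⟨T1, h1⟩ := h ε hε
  obtain ⟨T2, hT2, h2⟩ := gder_up (b := 1 / 2) (by norm_num) le_rfl (ex_big le_rfl) ε hε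
  refine ⟨0, max T1 T2, le_rfl, hε.le, fun T hT n hn hnL => ?_⟩
  have g1 : T1 ≤ T := (le_max_left _ _).trans hT
  have g2 : T2 ≤ T := (le_max_right _ _).trans hT
  have hL : 0 < Real.log T := Real.log_pos (by linarith)
  have hn1 : 1 ≤ n := by
    rcases Nat.eq_zero_or_pos n with h0 | h0
    · rw [h0] at hn
      have : 0 < a * Real.log T := by positivity
      simp at hn
      linarith
    · exact h0
  rcases le_or_gt (n : ℝ) (Real.log T / 2) with h3 | h3
  · rw [g_iter_norm, Complex.ofReal_zero, sub_zero, zero_add]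
    refine (h1 T g1 n hn h3).trans (le_of_eq ?_)
    rw [rpow_exp (by linarith)]
  · have h4 := h2 T g2 n hn1 (by linarith) ((0 : ℝ) : ℂ) (by simp) (by
      rw [Complex.ofReal_re, zero_add, le_div_iff₀ hL]
      linarith)
    rwa [Complex.ofReal_re] at h4

/-- few zeros in the whole left half -/
lemma few_full {a : ℝ} (ha : 0 < a) (h : FewLeft a) (δ ε : ℝ) (hδ : 0 < δ) (hε : 0 < ε) :
    ∃ T0 : ℝ, 400 ≤ T0 ∧ ∀ T : ℝ, T0 ≤ T → ∀ n : ℕ, a * Real.log T ≤ n → (n : ℝ) ≤ Real.log T →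
      ∀ S : Finset ℂ, (∀ s ∈ S, iteratedDeriv n riemannZeta s = 0 ∧ |s.im - T| ≤ 1 ∧ -10 ≤ s.re ∧
        s.re ≤ 1 / 2 - δ) →
        ∑ s ∈ S, (analyticOrderNatAt (iteratedDeriv n riemannZeta) s : ℝ) ≤ ε * Real.log T := by
  classical
  obtain ⟨T1, h1⟩ := h δ (ε / 2) hδ (by linarith)
  obtain ⟨T2, hT2, h2⟩ := few_of_ex (b := 1 / 2) (by norm_num) le_rfl (ex_big le_rfl) (min δ a) (ε / 2)
    (lt_min hδ ha) (by linarith)
  refine ⟨max T1 T2, hT2.trans (le_max_right _ _), fun T hT n hn hnL S hS => ?_⟩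
  have g1 : T1 ≤ T := (le_max_left _ _).trans hT
  have g2 : T2 ≤ T := (le_max_right _ _).trans hT
  have hL : 0 < Real.log T := Real.log_pos (by linarith)
  have hn1 : 1 ≤ n := by
    rcases Nat.eq_zero_or_pos n with h0 | h0
    · rw [h0] at hn
      have : 0 < a * Real.log T := by positivity
      simp at hn
      linarith
    · exact h0
  have hna : a ≤ (n : ℝ) / Real.log T := by rwa [le_div_iff₀ hL]
  rcases le_or_gt (n : ℝ) (Real.log T / 2) with h3 | h3
  · have hneg := h2 T g2 n hn1 hnL (S.filter fun s => s.re < 0) (by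
      intro s hs
      rw [Finset.mem_filter] at hs
      obtain ⟨p1, p2, p3, -⟩ := hS s hs.1
      refine ⟨p1, p2, p3, ?_⟩
      have := min_le_right δ a
      linarith [hs.2])
    have hpos := h1 T g1 n hn h3 (S.filter fun s => ¬ s.re < 0) (by
      intro s hs
      rw [Finset.mem_filter] at hs
      obtain ⟨p1, p2, -, p4⟩ := hS s hs.1
      exact ⟨p1, p2, not_lt.1 hs.2, p4⟩)
    rw [← Finset.sum_filter_add_sum_filter_not S (fun s => s.re < 0)]
    linarith
  · have hh : (1 / 2 : ℝ) ≤ (n : ℝ) / Real.log T := by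
      rw [le_div_iff₀ hL]; linarith
    have hall := h2 T g2 n hn1 hnL S (by
      intro s hs
      obtain ⟨p1, p2, p3, p4⟩ := hS s hs
      refine ⟨p1, p2, p3, ?_⟩
      have := min_le_left δ a
      linarith)
    have : 0 ≤ ε / 2 * Real.log T := by positivity
    linarith

/-- from the zeros to the common consequence -/
lemma bd_of_few {a a' : ℝ} (ha : 0 < a) (haa : a < a') (h : FewLeft a) : Bd a' := by
  intro ε hε
  obtain ⟨η, hηe⟩ : ∃ η : ℝ, η = min ε (3 / 4) := ⟨_, rfl⟩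
  have hη : 0 < η := by rw [hηe]; exact lt_min hε (by norm_num)
  have hη1 : η ≤ 3 / 4 := by rw [hηe]; exact min_le_right _ _
  have hη2 : η ≤ ε := by rw [hηe]; exact min_le_left _ _
  obtain ⟨ε1, T1, hε1, hT1, h1⟩ := line_of_few η hη hη1
  obtain ⟨T2, hT2, h2⟩ := gder_up (b := 1 / 2) (by norm_num) le_rfl (ex_big le_rfl) η hη
  obtain ⟨T3, hT3, h3⟩ := few_full ha h (η / 4) ε1 (by linarith) hε1
  obtain ⟨T4, hT4, h4⟩ := log_large (max 2 (a / (a' - a)))
  refine ⟨η, max (max T1 T2) (max (T3 + 15) T4), hη.le, hη2, fun T hT n hn hnL => ?_⟩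
  have g1 : T1 ≤ T := ((le_max_left _ _).trans (le_max_left _ _)).trans hT
  have g2 : T2 ≤ T := ((le_max_right _ _).trans (le_max_left _ _)).trans hT
  have g3 : T3 + 15 ≤ T := ((le_max_left _ _).trans (le_max_right _ _)).trans hT
  have g4 : T4 ≤ T := ((le_max_right _ _).trans (le_max_right _ _)).trans hT
  have hL2 : 2 ≤ Real.log T := (le_max_left _ _).trans (h4 T g4)
  have hLa : a / (a' - a) ≤ Real.log T := (le_max_right _ _).trans (h4 T g4)
  rw [div_le_iff₀ (by linarith)] at hLa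
  have hL : 0 < Real.log T := by linarith
  have hn1 : 1 ≤ n := by
    rcases Nat.eq_zero_or_pos n with h0 | h0
    · rw [h0] at hn
      have : 0 < a' * Real.log T := by
        have : 0 < a' := by linarith
        positivity
      simp at hn
      linarith
    · exact h0
  have hgoal : ‖iteratedDeriv n (g T) (η : ℂ)‖ ≤ Real.log T ^ n * Real.exp (Real.log T * (η + η)) := by
    rcases le_or_gt (n : ℝ) (Real.log T / 2) with h5 | h5
    · refine h1 T g1 n hn1 hnL fun T' hT' S hS => ?_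
      have ht := abs_le.1 hT'
      have hl := abs_le.1 (lognear (A := 15) (by norm_num) (by linarith) hT')
      refine h3 T' (by linarith) n ?_ (by linarith) S hS
      nlinarith
    · have h6 := h2 T g2 n hn1 (by linarith) (η : ℂ)
        (by rw [Complex.norm_real, Real.norm_of_nonneg hη.le]; linarith) (by
          rw [Complex.ofReal_re]
          have : (1 / 2 : ℝ) ≤ (n : ℝ) / Real.log T := by rw [le_div_iff₀ hL]; linarith
          linarith)
      rwa [Complex.ofReal_re] at h6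
  refine hgoal.trans ?_
  apply mul_le_mul_of_nonneg_left _ (by positivity)
  apply Real.exp_le_exp.2
  apply mul_le_mul_of_nonneg_left _ hL.le
  linarith

theorem ex_of_few {a r : ℝ} (ha : 0 < a) (hr : 2 * a < r) (hr50 : r ≤ 50) (h : FewLeft a ∨ LineBd a) :
    Ex (1 / 2 + r) 0 := by
  rcases le_or_gt (1 / 2) r with h1 | h1
  · exact ex_mono (by norm_num) le_rfl h1 hr50 (ex_big le_rfl)
  · rcases h with h | h
    · exact ex_of_bd (a := (a + r / 2) / 2) (by linarith) (by linarith) h1.le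
        (bd_of_few ha (by linarith) h)
    · exact ex_of_bd ha hr h1.le (bd_of_line ha h)

theorem lh_of_few (h : ∀ a : ℝ, 0 < a → FewLeft a ∨ LineBd a) : Ex (1 / 2) 0 := by
  have h1 : Ex (1 / 2 + 0) 0 := by
    refine ex_closed le_rfl (by norm_num) fun ε hε => ?_
    refine ⟨min ε (1 / 2), le_min hε.le (by norm_num), lt_min hε (by norm_num), min_le_right _ _, by
      rw [zero_add]; exact min_le_left _ _, ?_⟩
    have hm : 0 < min ε (1 / 2) := lt_min hε (by norm_num)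
    exact ex_of_few (a := min ε (1 / 2) / 4) (by linarith) (by linarith)
      ((min_le_right _ _).trans (by norm_num)) (h _ (by linarith))
  rwa [add_zero] at h1

lemma ex_right {b : ℝ} (hb : 0 ≤ b) (hb2 : b ≤ 1 / 2) (h : Ex (1 / 2) 0) : Ex (1 / 2 + b) 0 := by
  intro ε hε
  obtain ⟨C, hC⟩ := h ε hε
  rw [zero_add] at hC ⊢
  obtain ⟨C', hC'⟩ := plr ε hε.le C (by
    intro t ht
    have := hC t ht
    simpa using this)
  exact ⟨C', fun t ht => hC' (1 / 2 + b) (by linarith) (by linarith) t ht⟩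

theorem few_of_lh (h : Ex (1 / 2) 0) (a : ℝ) (ha : 0 < a) : FewLeft a := by
  intro δ ε hδ hε
  obtain ⟨b, hb⟩ : ∃ b : ℝ, b = min (a / 2) (1 / 2) := ⟨_, rfl⟩
  have hb0 : 0 < b := by rw [hb]; exact lt_min (by linarith) (by norm_num)
  have hb1 : b ≤ a / 2 := by rw [hb]; exact min_le_left _ _
  have hb2 : b ≤ 1 / 2 := by rw [hb]; exact min_le_right _ _
  obtain ⟨T1, hT1, h1⟩ := few_of_ex hb0 hb2 (ex_right hb0.le hb2 h) (a / 4) ε (by linarith) hε
  refine ⟨T1, fun T hT n hn hnL S hS => ?_⟩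
  have hL : 0 < Real.log T := Real.log_pos (by linarith)
  have hn1 : 1 ≤ n := by
    rcases Nat.eq_zero_or_pos n with h0 | h0
    · rw [h0] at hn
      have : 0 < a * Real.log T := by positivity
      simp at hn
      linarith
    · exact h0
  have hna : a ≤ (n : ℝ) / Real.log T := by rwa [le_div_iff₀ hL]
  exact h1 T hT n hn1 (by linarith) S fun s hs => by
    obtain ⟨p1, p2, p3, p4⟩ := hS s hs
    exact ⟨p1, p2, by linarith, by linarith⟩

theorem line_of_ex {b : ℝ} (hb : 0 < b) (hb2 : b ≤ 1 / 2) (h : Ex (1 / 2 + b) 0) (ε : ℝ) (hε : 0 < ε) :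
    ∃ T0 : ℝ, ∀ T : ℝ, T0 ≤ T → ∀ n : ℕ, 1 ≤ n → b * Real.log T ≤ n → (n : ℝ) ≤ Real.log T →
      ‖iteratedDeriv n riemannZeta (1 / 2 + I * T)‖ ≤ Real.log T ^ n * T ^ ε := by
  obtain ⟨T1, hT1, h1⟩ := gder_up hb hb2 h ε hε
  refine ⟨T1, fun T hT n hn hnb hnL => ?_⟩
  have hL : 0 < Real.log T := Real.log_pos (by linarith)
  have h2 := h1 T hT n hn (by linarith) 0 (by simp) (by
    rw [zero_re, zero_add, le_div_iff₀ hL]
    exact hnb)
  rw [g_iter_norm, sub_zero, zero_re, zero_add] at h2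
  rwa [rpow_exp (by linarith)]

theorem line_of_lh (h : Ex (1 / 2) 0) (a : ℝ) (ha : 0 < a) : LineBd a := by
  intro ε hε
  obtain ⟨b, hb⟩ : ∃ b : ℝ, b = min a (1 / 2) := ⟨_, rfl⟩
  have hb0 : 0 < b := by rw [hb]; exact lt_min ha (by norm_num)
  have hb1 : b ≤ a := by rw [hb]; exact min_le_left _ _
  have hb2 : b ≤ 1 / 2 := by rw [hb]; exact min_le_right _ _
  obtain ⟨T1, h1⟩ := line_of_ex hb0 hb2 (ex_right hb0.le hb2 h) ε hε
  refine ⟨max T1 500, fun T hT n hn hnL => ?_⟩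
  have g1 : T1 ≤ T := (le_max_left _ _).trans hT
  have g2 : 500 ≤ T := (le_max_right _ _).trans hT
  have hL : 0 < Real.log T := Real.log_pos (by linarith)
  have hn1 : 1 ≤ n := by
    rcases Nat.eq_zero_or_pos n with h0 | h0
    · rw [h0] at hn
      have : 0 < a * Real.log T := by positivity
      simp at hn
      linarith
    · exact h0
  exact h1 T g1 n hn1 (le_trans (mul_le_mul_of_nonneg_right hb1 hL.le) hn) (by linarith)

end Pool.Agent.H875.HD
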