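import Pool.Agent.H875.HD.Ent

set_option autoImplicit false

/-!
# Upper bounds give few zeros
-/

namespace Pool.Agent.H875.HD

open Complex Filter Topology Set Metric
open Pool.Agent.W186.LH (Ex jc)
open scoped ComplexConjugate

/-- all zeros in one cell -/
lemma cell {b : ℝ} (hb : 0 < b) (hb2 : b ≤ 1 / 2) (h : Ex (1 / 2 + b) 0) (δ ε : ℝ) (hδ : 0 < δ) (hδ1 : δ ≤ 1)
    (hε : 0 < ε) : ∃ T0 : ℝ, 400 ≤ T0 ∧ ∀ T : ℝ, T0 ≤ T → ∀ n : ℕ, 1 ≤ n → (n : ℝ) ≤ 2 * Real.log T →
      ∀ S : Finset ℂ, (∀ s ∈ S, iteratedDeriv n riemannZeta s = 0 ∧ |s.im - T| ≤ δ ∧ -10 ≤ s.re ∧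
        s.re ≤ 1 / 2 + n / Real.log T - b - δ) →
        ∑ s ∈ S, (analyticOrderNatAt (iteratedDeriv n riemannZeta) s : ℝ) ≤ ε * Real.log T := by
  obtain ⟨q, hq⟩ : ∃ q : ℝ, q = δ / 40 := ⟨_, rfl⟩
  have hq0 : 0 < q := by rw [hq]; positivity
  -- the logarithm of the ratio of the radii is at least `q`
  obtain ⟨K, T1, hK, hT1, h1⟩ := glow
  obtain ⟨T2, hT2, h2⟩ := gder_up hb hb2 h (ε * q / 4) (by positivity)
  obtain ⟨T3, hT3, h3⟩ := fac_near
  refine ⟨max (max T1 T2) (max T3 (Real.exp ((K + 2) / (ε * q / 4)))), ?_, ?_⟩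
  · exact hT1.trans ((le_max_left _ _).trans (le_max_left _ _))
  intro T hT n hn hnL S hS
  have g1 : T1 ≤ T := ((le_max_left _ _).trans (le_max_left _ _)).trans hT
  have g2 : T2 ≤ T := ((le_max_right _ _).trans (le_max_left _ _)).trans hT
  have g3 : T3 ≤ T := ((le_max_left _ _).trans (le_max_right _ _)).trans hT
  have g4 : Real.exp ((K + 2) / (ε * q / 4)) ≤ T := ((le_max_right _ _).trans (le_max_right _ _)).trans hT
  have hT50 : 50 < T := by linarith
  have hT0 : 0 < T := by linarith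
  have hL0 : 0 < Real.log T := Real.log_pos (by linarith)
  have hLbig : (K + 2) / (ε * q / 4) ≤ Real.log T := by
    rw [Real.le_log_iff_exp_le hT0]; exact g4
  rw [div_le_iff₀ (by positivity)] at hLbig
  have lowT := h1 T g1 n hn hnL
  have upT := h2 T g2 n hn hnL
  have facT := h3 T g3 n hnL
  obtain ⟨L, hL⟩ : ∃ L, L = Real.log T := ⟨_, rfl⟩
  obtain ⟨c, hc⟩ : ∃ c : ℝ, c = n / Real.log T := ⟨_, rfl⟩
  rw [← hc] at lowT hS
  have hc2 : c ≤ 2 := by rw [hc, div_le_iff₀ hL0]; linarith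
  have hc0 : 0 < c := by
    rw [hc]
    have : (0 : ℝ) < n := by exact_mod_cast hn
    positivity
  obtain ⟨Ro, hRo⟩ : ∃ Ro : ℝ, Ro = 5 + c - b - δ / 4 := ⟨_, rfl⟩
  obtain ⟨Ri, hRi⟩ : ∃ Ri : ℝ, Ri = Ro - δ / 4 := ⟨_, rfl⟩
  have hRi4 : 4 ≤ Ri := by rw [hRi, hRo]; linarith
  have hRo7 : Ro ≤ 7 := by rw [hRo]; linarith
  -- the value at the centre
  have hc5 : Real.exp (-(K + 1)) ≤ ‖F T n 5‖ := by
    have n5 : ‖(5 : ℂ)‖ = 5 := by norm_num
    have r5 : (5 : ℂ).re = 5 := by norm_num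
    rw [F_norm hT50 n (by rw [n5]; norm_num) hL0]
    have f1 := (facT 5 (by rw [n5]; norm_num)).1
    have f2 := lowT 5 (by rw [n5]; norm_num) (by rw [r5]; linarith)
    have hp : 0 < Real.log T ^ n * Real.exp (Real.log T * (5 : ℂ).re) := by positivity
    have f3 : Real.exp (-K) ≤ ‖iteratedDeriv n (g T) 5‖ / (Real.log T ^ n * Real.exp (Real.log T * (5 : ℂ).re)) := by
      rw [le_div_iff₀ hp]; exact f2
    have f4 : Real.exp (-(K + 1)) ≤ 1 / 2 * Real.exp (-K) := by
      have : Real.exp (-1) ≤ 1 / 2 := by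
        rw [Real.exp_neg, inv_le_comm₀ (Real.exp_pos _) (by norm_num)]
        have := Real.add_one_le_exp (1 : ℝ)
        linarith
      calc Real.exp (-(K + 1)) = Real.exp (-1) * Real.exp (-K) := by rw [← Real.exp_add]; congr 1; ring
        _ ≤ _ := mul_le_mul_of_nonneg_right this (Real.exp_pos _).le
    exact f4.trans (mul_le_mul f1 f3 (Real.exp_pos _).le (by positivity))
  have h5ne : F T n 5 ≠ 0 := by
    intro h0
    rw [h0, norm_zero] at hc5
    exact absurd hc5 (not_le.2 (Real.exp_pos _))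
  have hWne : ∃ s, W n s ≠ 0 := by
    refine ⟨-1 * 5 + (1 / 2 + I * T), fun h0 => h5ne ?_⟩
    unfold F
    rw [h0, zero_mul]
  have hM : ∀ u ∈ sphere (5 : ℂ) Ro, ‖F T n u‖ ≤ 2 * Real.exp (Real.log T * (ε * q / 4)) := by
    intro u hu
    rw [mem_sphere, dist_eq_norm] at hu
    have hu1 : ‖u‖ ≤ 12 := by
      have := norm_add_le (u - 5) 5
      rw [sub_add_cancel] at this
      have n5 : ‖(5 : ℂ)‖ = 5 := by norm_num
      linarith
    have hure : b ≤ u.re + c := by
      have := (abs_le.1 ((abs_re_le_norm (u - 5)).trans hu.le)).1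
      rw [sub_re] at this
      have r5 : (5 : ℂ).re = 5 := by norm_num
      rw [r5] at this
      linarith
    have f1 := (facT u (by linarith)).2
    have f2 := upT u (by linarith) (by rw [← hc]; exact hure)
    rw [F_norm hT50 n (by linarith) hL0]
    have hp : 0 < Real.log T ^ n * Real.exp (Real.log T * u.re) := by positivity
    have f3 : ‖iteratedDeriv n (g T) u‖ / (Real.log T ^ n * Real.exp (Real.log T * u.re)) ≤
        Real.exp (Real.log T * (ε * q / 4)) := by
      rw [div_le_iff₀ hp]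
      refine f2.trans (le_of_eq ?_)
      rw [mul_add, Real.exp_add]
      ring
    exact mul_le_mul f1 f3 (by positivity) (by norm_num)
  -- the zeros
  classical
  obtain ⟨S', hS'⟩ : ∃ S' : Finset ℂ, S' = S.image fun s => 1 / 2 + I * T - s := ⟨_, rfl⟩
  have hinj : Set.InjOn (fun s : ℂ => 1 / 2 + I * T - s) S := fun a _ b _ hab => by
    have : (1 / 2 + I * (T : ℂ) - a) = 1 / 2 + I * T - b := hab
    linear_combination -this
  have hSprop : ∀ s ∈ S, ‖(1 / 2 + I * T - s)‖ ≤ 50 ∧ (1 / 2 + I * T - s) ∈ closedBall (5 : ℂ) Ri := by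
    intro s hs
    obtain ⟨z0, z1, z2, z3⟩ := hS s hs
    obtain ⟨u, hu⟩ : ∃ u : ℂ, u = 1 / 2 + I * T - s := ⟨_, rfl⟩
    have ure : u.re = 1 / 2 - s.re := by rw [hu]; simp
    have uim : |u.im| ≤ δ := by
      have : u.im = -(s.im - T) := by rw [hu]; simp
      rw [this, abs_neg]; exact z1
    rw [← hu]
    have hre1 : u.re ≤ 21 / 2 := by rw [ure]; linarith
    have hre0 : b - c + δ ≤ u.re := by rw [ure]; linarith
    have hre2 : |u.re| ≤ 21 / 2 := by
      rw [abs_le]; constructor <;> linarith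
    have hun : ‖u‖ ≤ 45 := by
      refine (Complex.norm_le_abs_re_add_abs_im u).trans ?_
      linarith
    refine ⟨by linarith, ?_⟩
    -- u.re < 5
    have hre5 : u.re ≤ 5 := by
      by_contra hcon
      push Not at hcon
      have f2 := lowT u hun (by linarith)
      have h0 : iteratedDeriv n (g T) u = 0 := by
        rw [g_iter, hu]
        have : (1 / 2 + I * (T : ℂ) - (1 / 2 + I * T - s)) = s := by ring
        rw [this, z0, mul_zero]
      rw [h0, norm_zero] at f2
      have : 0 < Real.exp (-K) * (Real.log T ^ n * Real.exp (Real.log T * u.re)) := by positivity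
      linarith
    rw [mem_closedBall, dist_eq_norm]
    have hsq : ‖u - 5‖ ^ 2 ≤ Ri ^ 2 := by
      rw [Complex.sq_norm, Complex.normSq_apply]
      have e1 : (u - 5).re = u.re - 5 := by simp
      have e2 : (u - 5).im = u.im := by simp
      rw [e1, e2]
      have a2 : u.im * u.im ≤ δ ^ 2 := by
        rw [← sq, ← sq_abs]
        exact pow_le_pow_left₀ (abs_nonneg _) uim 2
      have a1 : 5 - u.re ≤ Ri - δ / 2 := by rw [hRi, hRo]; linarith
      have a3 : (u.re - 5) * (u.re - 5) ≤ (Ri - δ / 2) ^ 2 := by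
        have : (u.re - 5) * (u.re - 5) = (5 - u.re) ^ 2 := by ring
        rw [this]
        exact pow_le_pow_left₀ (by linarith) a1 2
      nlinarith
    exact (sq_le_sq₀ (norm_nonneg _) (by linarith)).1 hsq
  have hj := jc (F_diff T n) (c := 5) (r := Ri) (R := Ro) (by linarith) (by rw [hRi]; linarith) hM h5ne S'
    (by
      intro z hz
      rw [hS', Finset.mem_image] at hz
      obtain ⟨s, hs, rfl⟩ := hz
      exact (hSprop s hs).2)
  have hsum : ∑ z ∈ S', analyticOrderNatAt (F T n) z =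
      ∑ s ∈ S, analyticOrderNatAt (iteratedDeriv n riemannZeta) s := by
    rw [hS', Finset.sum_image hinj]
    refine Finset.sum_congr rfl fun s hs => ?_
    have := F_ord hT50 n (hSprop s hs).1 hWne one_ne_zero (one_mul _)
    simp only [one_mul, sub_sub_cancel] at this
    exact this
  rw [hsum] at hj
  obtain ⟨N, hN⟩ : ∃ N : ℕ, N = ∑ s ∈ S, analyticOrderNatAt (iteratedDeriv n riemannZeta) s := ⟨_, rfl⟩
  rw [← hN] at hj
  have hNc : (∑ w ∈ S, (analyticOrderNatAt (iteratedDeriv n riemannZeta) w : ℝ)) = N := by rw [hN]; push_cast; rfl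
  rw [hNc]
  have hratio : Real.exp q ≤ Ro / Ri := by
    have hRi0 : 0 < Ri := by linarith
    rw [le_div_iff₀ hRi0]
    have h6 : Real.exp q ≤ 1 + 11 / 10 * q := by
      have hq1 : q ≤ 1 / 40 := by rw [hq]; linarith
      have := Real.exp_bound' hq0.le (by linarith) (n := 2) (by norm_num)
      norm_num [Finset.sum_range_succ] at this
      nlinarith
    have h7 : Ro = Ri + δ / 4 := by rw [hRi]; ring
    have h8 : Ri ≤ 7 := by rw [hRi]; linarith
    calc Real.exp q * Ri ≤ (1 + 11 / 10 * q) * Ri := mul_le_mul_of_nonneg_right h6 hRi0.le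
      _ ≤ Ro := by rw [h7, hq]; nlinarith
  have h9 : Real.exp (N * q) * Real.exp (-(K + 1)) ≤ 2 * Real.exp (Real.log T * (ε * q / 4)) := by
    calc Real.exp (N * q) * Real.exp (-(K + 1)) = (Real.exp q) ^ N * Real.exp (-(K + 1)) := by
          rw [← Real.exp_nat_mul]
      _ ≤ (Ro / Ri) ^ N * ‖F T n 5‖ :=
          mul_le_mul (pow_le_pow_left₀ (Real.exp_pos _).le hratio N) hc5 (Real.exp_pos _).le (by
            have : 0 ≤ Ro / Ri := by
              have : 0 ≤ Ro := by linarith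
              positivity
            positivity)
      _ ≤ _ := hj
  have h10 : (2 : ℝ) ≤ Real.exp 1 := by
    have := Real.add_one_le_exp (1 : ℝ)
    linarith
  have h11 : Real.exp (N * q) * Real.exp (-(K + 1)) ≤ Real.exp (1 + Real.log T * (ε * q / 4)) := by
    rw [Real.exp_add 1]
    exact h9.trans (mul_le_mul_of_nonneg_right h10 (Real.exp_pos _).le)
  rw [← Real.exp_add, Real.exp_le_exp] at h11
  have h12 : (N : ℝ) * q ≤ (ε * Real.log T) * q := by nlinarith
  exact le_of_mul_le_mul_right h12 hq0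

/-- splitting into short pieces -/
lemma cover (f : ℂ → ℝ) (hf : ∀ s, 0 ≤ f s) (S : Finset ℂ) (T A h B : ℝ) (hA : 0 ≤ A) (hh : 0 < h)
    (hS : ∀ s ∈ S, |s.im - T| ≤ A)
    (hB : ∀ T' : ℝ, |T' - T| ≤ A → ∀ S' : Finset ℂ, S' ⊆ S → (∀ s ∈ S', |s.im - T'| ≤ h) → ∑ s ∈ S', f s ≤ B) :
    ∑ s ∈ S, f s ≤ (⌊2 * A / h⌋₊ + 1 : ℕ) * B := by
  classical
  have hmap : ∀ s ∈ S, ⌊(s.im - (T - A)) / h⌋₊ ∈ Finset.range (⌊2 * A / h⌋₊ + 1) := by
    intro s hs
    have h1 := abs_le.1 (hS s hs)
    rw [Finset.mem_range, Nat.lt_succ_iff]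
    apply Nat.floor_le_floor
    gcongr
    linarith
  rw [← Finset.sum_fiberwise_of_maps_to hmap]
  have hle : ∀ j ∈ Finset.range (⌊2 * A / h⌋₊ + 1),
      ∑ s ∈ S with ⌊(s.im - (T - A)) / h⌋₊ = j, f s ≤ B := by
    intro j hj
    rw [Finset.mem_range, Nat.lt_succ_iff] at hj
    have hj0 : (0 : ℝ) ≤ j := Nat.cast_nonneg j
    have hj2 : (j : ℝ) * h ≤ 2 * A := by
      have h2 : (j : ℝ) ≤ ⌊2 * A / h⌋₊ := by exact_mod_cast hj
      have h3 := Nat.floor_le (show 0 ≤ 2 * A / h by positivity)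
      have h4 := h2.trans h3
      rwa [le_div_iff₀ hh] at h4
    apply hB (T - A + j * h)
    · rw [abs_le]
      have : 0 ≤ (j : ℝ) * h := by positivity
      constructor <;> linarith
    · exact Finset.filter_subset _ _
    · intro s hs
      rw [Finset.mem_filter] at hs
      have h1 := abs_le.1 (hS s hs.1)
      have h5 : 0 ≤ (s.im - (T - A)) / h := div_nonneg (by linarith) hh.le
      have h6 := Nat.floor_le h5
      have h7 := Nat.lt_floor_add_one ((s.im - (T - A)) / h)
      rw [hs.2] at h6 h7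
      rw [le_div_iff₀ hh] at h6
      rw [div_lt_iff₀ hh] at h7
      rw [abs_le]
      constructor <;> linarith
  refine (Finset.sum_le_sum hle).trans ?_
  rw [Finset.sum_const, Finset.card_range, nsmul_eq_mul]

/-- **Bounds for zeta give few zeros of the derivatives.** -/
theorem few_of_ex {b : ℝ} (hb : 0 < b) (hb2 : b ≤ 1 / 2) (h : Ex (1 / 2 + b) 0) (δ ε : ℝ) (hδ : 0 < δ)
    (hε : 0 < ε) : ∃ T0 : ℝ, 400 ≤ T0 ∧ ∀ T : ℝ, T0 ≤ T → ∀ n : ℕ, 1 ≤ n → (n : ℝ) ≤ Real.log T →
      ∀ S : Finset ℂ, (∀ s ∈ S, iteratedDeriv n riemannZeta s = 0 ∧ |s.im - T| ≤ 1 ∧ -10 ≤ s.re ∧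
        s.re ≤ 1 / 2 + n / Real.log T - b - δ) →
        ∑ s ∈ S, (analyticOrderNatAt (iteratedDeriv n riemannZeta) s : ℝ) ≤ ε * Real.log T := by
  obtain ⟨d, hd⟩ : ∃ d : ℝ, d = min (δ / 2) 1 := ⟨_, rfl⟩
  have hd0 : 0 < d := by rw [hd]; exact lt_min (by linarith) one_pos
  have hd1 : d ≤ 1 := by rw [hd]; exact min_le_right _ _
  have hd2 : d ≤ δ / 2 := by rw [hd]; exact min_le_left _ _
  obtain ⟨N, hN⟩ : ∃ N : ℕ, N = ⌊2 * 1 / d⌋₊ + 1 := ⟨_, rfl⟩
  have hN0 : (0 : ℝ) < N := by rw [hN]; positivity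
  obtain ⟨T1, hT1, h1⟩ := cell hb hb2 h d (ε / (2 * N)) hd0 hd1 (by positivity)
  refine ⟨max (T1 + 1) (Real.exp (2 + 2 / δ)), by
    refine le_trans ?_ (le_max_left _ _); linarith, ?_⟩
  intro T hT n hn hnL S hS
  have g1 : T1 + 1 ≤ T := (le_max_left _ _).trans hT
  have hT0 : 0 < T := by linarith
  have hLb : 2 + 2 / δ ≤ Real.log T := by
    rw [Real.le_log_iff_exp_le hT0]; exact (le_max_right _ _).trans hT
  have hδi : 0 < 2 / δ := by positivity
  have hL0 : 0 < Real.log T := by linarith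
  have hkey := cover (fun s => (analyticOrderNatAt (iteratedDeriv n riemannZeta) s : ℝ))
    (fun s => Nat.cast_nonneg _) S T 1 d (ε / N * Real.log T) (by norm_num) hd0
    (fun s hs => (hS s hs).2.1) (by
      intro T' hT' S' hS' hS'2
      have ht := abs_le.1 hT'
      have hT'1 : T1 ≤ T' := by linarith
      have hT'0 : 0 < T' := by linarith
      have hlog : |Real.log T' - Real.log T| ≤ 1 := by
        rw [abs_le]
        constructor
        · have h2 : T * Real.exp (-1) ≤ T' := by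
            have h3 : Real.exp (-1) ≤ 1 / 2 := by
              rw [Real.exp_neg, inv_le_comm₀ (Real.exp_pos _) (by norm_num)]
              have := Real.add_one_le_exp (1 : ℝ)
              linarith
            nlinarith
          have h4 := Real.log_le_log (by positivity) h2
          rw [Real.log_mul hT0.ne' (Real.exp_ne_zero _), Real.log_exp] at h4
          linarith
        · have h2 : T' ≤ T * Real.exp 1 := by
            have := Real.add_one_le_exp (1 : ℝ)
            nlinarith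
          have h4 := Real.log_le_log hT'0 h2
          rw [Real.log_mul hT0.ne' (Real.exp_ne_zero _), Real.log_exp] at h4
          linarith
      have hlog' := abs_le.1 hlog
      have hL'0 : 0 < Real.log T' := by linarith
      have hn0 : (0 : ℝ) < n := by exact_mod_cast hn
      have h5 := h1 T' hT'1 n hn (by linarith) S' (by
        intro s hs
        obtain ⟨z0, z1, z2, z3⟩ := hS s (hS' hs)
        refine ⟨z0, hS'2 s hs, z2, ?_⟩
        have h6 : (n : ℝ) / Real.log T ≤ n / Real.log T' + δ / 2 := by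
          rw [div_add' _ _ _ hL'0.ne', div_le_div_iff₀ hL0 hL'0]
          have h7 : (n : ℝ) * (Real.log T' - Real.log T) ≤ Real.log T * 1 := by
            calc (n : ℝ) * (Real.log T' - Real.log T) ≤ n * 1 := by
                  apply mul_le_mul_of_nonneg_left hlog'.2 hn0.le
              _ ≤ _ := by linarith
          have h8 : 1 ≤ δ / 2 * Real.log T' := by
            have : 2 / δ ≤ Real.log T' := by linarith
            rw [div_le_iff₀ hδ] at this
            linarith
          nlinarith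
        linarith)
      refine h5.trans ?_
      have h9 : Real.log T' ≤ 2 * Real.log T := by linarith
      calc ε / (2 * N) * Real.log T' ≤ ε / (2 * N) * (2 * Real.log T) := by gcongr
        _ = ε / N * Real.log T := by field_simp)
  refine hkey.trans (le_of_eq ?_)
  rw [← hN]
  field_simp

end Pool.Agent.H875.HD
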