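import Pool.Agent.H875.HD.Base

set_option autoImplicit false

/-!
# Lower bounds for high derivatives on the left
-/

namespace Pool.Agent.H875.HD

open Complex Filter Topology Set Metric
open scoped ComplexConjugate

lemma fac_exp (n : ℕ) (hn : 1 ≤ n) : (n.factorial : ℝ) * Real.exp n ≤ Real.exp 1 * n * (n : ℝ) ^ n := by
  induction n, hn using Nat.le_induction with
  | base => simp
  | succ n hn ih =>
    have hn0 : (0 : ℝ) < n := by exact_mod_cast hn
    have h1 : Real.exp 1 * (n : ℝ) ^ (n + 1) ≤ ((n : ℝ) + 1) ^ (n + 1) := by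
      have h2 : (1 : ℝ) ≤ ((n + 1 : ℕ) : ℝ) * Real.log ((n + 1) / n) := by
        have h3 := Real.one_sub_inv_le_log_of_pos (show (0 : ℝ) < (n + 1) / n by positivity)
        have h4 : 1 - ((n + 1 : ℝ) / n)⁻¹ = 1 / (n + 1) := by field_simp; ring
        rw [h4] at h3
        push_cast
        calc (1 : ℝ) = (n + 1) * (1 / (n + 1)) := by field_simp
          _ ≤ _ := mul_le_mul_of_nonneg_left h3 (by positivity)
      have h5 := Real.exp_le_exp.2 h2
      rw [Real.exp_nat_mul, Real.exp_log (by positivity), div_pow] at h5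
      rwa [le_div_iff₀ (by positivity)] at h5
    push_cast [Nat.factorial_succ]
    rw [Real.exp_add]
    calc ((n : ℝ) + 1) * (n.factorial : ℝ) * (Real.exp n * Real.exp 1)
        = ((n : ℝ) + 1) * Real.exp 1 * ((n.factorial : ℝ) * Real.exp n) := by ring
      _ ≤ ((n : ℝ) + 1) * Real.exp 1 * (Real.exp 1 * n * (n : ℝ) ^ n) :=
          mul_le_mul_of_nonneg_left ih (by positivity)
      _ = Real.exp 1 * ((n : ℝ) + 1) * (Real.exp 1 * (n : ℝ) ^ (n + 1)) := by ring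
      _ ≤ Real.exp 1 * ((n : ℝ) + 1) * ((n : ℝ) + 1) ^ (n + 1) :=
          mul_le_mul_of_nonneg_left h1 (by positivity)

/-- Cauchy's estimate with the radius `n / l` -/
lemma cau {f : ℂ → ℂ} {u0 : ℂ} {n : ℕ} (hn : 1 ≤ n) {l C : ℝ} (hl : 0 < l)
    (hf : DifferentiableOn ℂ f (closedBall u0 (n / l)))
    (hb : ∀ u ∈ sphere u0 (n / l), ‖f u‖ ≤ Real.exp n * C) :
    ‖iteratedDeriv n f u0‖ ≤ Real.exp 1 * n * l ^ n * C := by
  have hn0 : (0 : ℝ) < n := by exact_mod_cast hn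
  have hr : 0 < (n : ℝ) / l := by positivity
  have h1 := Complex.norm_iteratedDeriv_le_of_forall_mem_sphere_norm_le n hr
    (hf.diffContOnCl_ball subset_rfl) hb
  refine h1.trans ?_
  have hC : 0 ≤ C := by
    obtain ⟨w, hw⟩ := (NormedSpace.sphere_nonempty (E := ℂ) (x := u0) (r := (n : ℝ) / l)).2 hr.le
    have := (norm_nonneg _).trans (hb w hw)
    exact nonneg_of_mul_nonneg_right this (Real.exp_pos _)
  have h2 := fac_exp n hn
  rw [div_pow, div_div_eq_mul_div]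
  rw [div_le_iff₀ (by positivity)]
  calc (n.factorial : ℝ) * (Real.exp n * C) * l ^ n = ((n.factorial : ℝ) * Real.exp n) * (C * l ^ n) := by ring
    _ ≤ (Real.exp 1 * n * (n : ℝ) ^ n) * (C * l ^ n) := mul_le_mul_of_nonneg_right h2 (by positivity)
    _ = _ := by ring

lemma iter_exp {ι : Type*} (S : Finset ι) (c a : ι → ℂ) (n : ℕ) :
    iteratedDeriv n (fun u : ℂ => ∑ i ∈ S, c i * cexp (a i * u)) =
      fun u => ∑ i ∈ S, c i * (a i) ^ n * cexp (a i * u) := by
  induction n with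
  | zero => simp
  | succ n ih =>
    rw [iteratedDeriv_succ, ih]
    funext u
    have h : HasDerivAt (fun u : ℂ => ∑ i ∈ S, c i * (a i) ^ n * cexp (a i * u))
        (∑ i ∈ S, c i * (a i) ^ n * (cexp (a i * u) * a i)) u := by
      apply HasDerivAt.fun_sum
      intro i _
      have h1 : HasDerivAt (fun u : ℂ => a i * u) (a i) u := by
        simpa using (hasDerivAt_id u).const_mul (a i)
      exact (h1.cexp).const_mul _
    rw [h.deriv]
    refine Finset.sum_congr rfl fun i _ => ?_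
    ring

/-- the sum `∑_{m = 2}^{M} m^{-3}` -/
lemma sum_cubes (M : ℕ) : ∑ m ∈ Finset.range M, (1 : ℝ) / ((m : ℝ) + 2) ^ 3 ≤ 1 / 4 := by
  have h : ∀ M : ℕ, ∑ m ∈ Finset.range M, (1 : ℝ) / ((m : ℝ) + 2) ^ 3 ≤
      1 / 4 - 1 / (2 * ((M : ℝ) + 1) * ((M : ℝ) + 2)) := by
    intro M
    induction M with
    | zero => norm_num
    | succ M ih =>
      rw [Finset.sum_range_succ]
      have hM : (0 : ℝ) ≤ M := Nat.cast_nonneg M
      have h1 : (1 : ℝ) / ((M : ℝ) + 2) ^ 3 ≤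
          1 / (2 * ((M : ℝ) + 1) * ((M : ℝ) + 2)) - 1 / (2 * ((M : ℝ) + 1 + 1) * ((M : ℝ) + 1 + 2)) := by
        have e : 1 / (2 * ((M : ℝ) + 1) * ((M : ℝ) + 2)) - 1 / (2 * ((M : ℝ) + 1 + 1) * ((M : ℝ) + 1 + 2)) =
            1 / (((M : ℝ) + 1) * ((M : ℝ) + 2) * ((M : ℝ) + 3)) := by
          field_simp
          ring
        rw [e]
        apply one_div_le_one_div_of_le (by positivity)
        nlinarith
      push_cast
      linarith
  refine (h M).trans ?_
  have : (0 : ℝ) ≤ 1 / (2 * ((M : ℝ) + 1) * ((M : ℝ) + 2)) := by positivity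
  linarith

/-- the `M`-th partial sum of `e^{lu} ζ(s + u)` -/
noncomputable def pS (l : ℝ) (s : ℂ) (M : ℕ) (u : ℂ) : ℂ :=
  ∑ m ∈ Finset.range (M + 1), (((m : ℝ) + 1 : ℝ) : ℂ) ^ (-s) * cexp (((l - Real.log ((m : ℝ) + 1) : ℝ) : ℂ) * u)

lemma pS_eq (l : ℝ) (s : ℂ) (M : ℕ) (u : ℂ) :
    pS l s M u = cexp (l * u) * ∑ m ∈ Finset.range (M + 1), 1 / ((m : ℂ) + 1) ^ (s + u) := by
  unfold pS
  rw [Finset.mul_sum]
  refine Finset.sum_congr rfl fun m _ => ?_
  have h0 : (((m : ℝ) + 1 : ℝ) : ℂ) ≠ 0 := by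
    have : (0 : ℝ) < (m : ℝ) + 1 := by positivity
    exact_mod_cast this.ne'
  have e0 : ((m : ℂ) + 1) = (((m : ℝ) + 1 : ℝ) : ℂ) := by push_cast; ring
  rw [e0, one_div, ← Complex.cpow_neg, neg_add, Complex.cpow_add _ _ h0, Complex.cpow_def_of_ne_zero h0 (-u),
    ← Complex.ofReal_log (by positivity)]
  rw [mul_left_comm, ← Complex.exp_add]
  congr 2
  push_cast
  ring

lemma pS_diff (l : ℝ) (s : ℂ) (M : ℕ) : Differentiable ℂ (pS l s M) := by
  unfold pS
  fun_prop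

lemma norm_one_div_cpow (m : ℕ) (s : ℂ) : ‖1 / ((m : ℂ) + 1) ^ s‖ = 1 / ((m : ℝ) + 1) ^ s.re := by
  have h1 : ((m : ℂ) + 1) = (((m : ℝ) + 1 : ℝ) : ℂ) := by push_cast; ring
  rw [norm_div, norm_one, h1, Complex.norm_cpow_eq_rpow_re_of_pos (by positivity)]

/-- the tail -/
lemma tail_bd (M : ℕ) (s : ℂ) (hs : 3 ≤ s.re) :
    ‖riemannZeta s - ∑ m ∈ Finset.range (M + 1), 1 / ((m : ℂ) + 1) ^ s‖ ≤
      ∑' m : ℕ, 1 / ((((m + (M + 1) : ℕ)) : ℝ) + 1) ^ (3 : ℕ) := by
  have hsum : Summable fun m : ℕ => (1 : ℝ) / ((m : ℝ) + 1) ^ (3 : ℕ) := by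
    have := (summable_nat_add_iff 1).2 (Real.summable_one_div_nat_pow.2 (by norm_num : 1 < 3))
    simpa using this
  have hle : ∀ m : ℕ, ‖1 / ((m : ℂ) + 1) ^ s‖ ≤ (1 : ℝ) / ((m : ℝ) + 1) ^ (3 : ℕ) := by
    intro m
    rw [norm_one_div_cpow]
    apply one_div_le_one_div_of_le (by positivity)
    rw [← Real.rpow_natCast]
    apply Real.rpow_le_rpow_of_exponent_le
    · have : (0 : ℝ) ≤ m := Nat.cast_nonneg m
      linarith
    · push_cast; exact hs
  have hsumc : Summable fun m : ℕ => 1 / ((m : ℂ) + 1) ^ s := Summable.of_norm_bounded hsum hle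
  rw [zeta_eq_tsum_one_div_nat_add_one_cpow (by linarith), ← hsumc.sum_add_tsum_nat_add (M + 1),
    add_sub_cancel_left]
  have h2 : Summable fun m : ℕ => (1 : ℝ) / ((((m + (M + 1) : ℕ)) : ℝ) + 1) ^ (3 : ℕ) :=
    (summable_nat_add_iff (M + 1)).2 hsum
  exact tsum_of_norm_bounded h2.hasSum fun m => hle (m + (M + 1))

lemma tail_lim : Tendsto (fun M : ℕ => ∑' m : ℕ, (1 : ℝ) / ((((m + (M + 1) : ℕ)) : ℝ) + 1) ^ (3 : ℕ))
    atTop (𝓝 0) := by
  have := (tendsto_sum_nat_add fun m : ℕ => (1 : ℝ) / ((m : ℝ) + 1) ^ (3 : ℕ)).comp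
    (tendsto_add_atTop_nat 1)
  refine this.congr fun M => ?_
  simp [Function.comp]

/-- the derivatives of the partial sums -/
lemma pS_low {l : ℝ} (hl : 0 < l) (s : ℂ) (M n : ℕ) (u : ℂ) (h : (n : ℝ) / l + 3 ≤ (s + u).re) :
    3 / 4 * (l ^ n * Real.exp (l * u.re)) ≤ ‖iteratedDeriv n (pS l s M) u‖ := by
  have e1 : iteratedDeriv n (pS l s M) u = ∑ m ∈ Finset.range (M + 1), (((m : ℝ) + 1 : ℝ) : ℂ) ^ (-s) *
      (((l - Real.log ((m : ℝ) + 1) : ℝ) : ℂ)) ^ n * cexp (((l - Real.log ((m : ℝ) + 1) : ℝ) : ℂ) * u) := by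
    have := congrFun (iter_exp (Finset.range (M + 1)) (fun m => (((m : ℝ) + 1 : ℝ) : ℂ) ^ (-s))
      (fun m => ((l - Real.log ((m : ℝ) + 1) : ℝ) : ℂ)) n) u
    exact this
  rw [e1, Finset.sum_range_succ']
  have e0 : (((((0 : ℕ) : ℝ) + 1 : ℝ) : ℂ) ^ (-s) * (((l - Real.log (((0 : ℕ) : ℝ) + 1) : ℝ) : ℂ)) ^ n *
      cexp (((l - Real.log (((0 : ℕ) : ℝ) + 1) : ℝ) : ℂ) * u)) = (l : ℂ) ^ n * cexp (l * u) := by
    simp
  rw [e0]
  have hmain : ‖(l : ℂ) ^ n * cexp (l * u)‖ = l ^ n * Real.exp (l * u.re) := by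
    rw [norm_mul, norm_pow, Complex.norm_real, Real.norm_of_nonneg hl.le, Complex.norm_exp]
    congr 2
    simp
  have hrest : ‖∑ k ∈ Finset.range M, (((((k + 1 : ℕ) : ℝ)) + 1 : ℝ) : ℂ) ^ (-s) *
      (((l - Real.log ((((k + 1 : ℕ) : ℝ)) + 1) : ℝ) : ℂ)) ^ n *
      cexp (((l - Real.log ((((k + 1 : ℕ) : ℝ)) + 1) : ℝ) : ℂ) * u)‖ ≤ 1 / 4 * (l ^ n * Real.exp (l * u.re)) := by
    refine (norm_sum_le _ _).trans ?_
    calc ∑ k ∈ Finset.range M, ‖(((((k + 1 : ℕ) : ℝ)) + 1 : ℝ) : ℂ) ^ (-s) *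
        (((l - Real.log ((((k + 1 : ℕ) : ℝ)) + 1) : ℝ) : ℂ)) ^ n *
        cexp (((l - Real.log ((((k + 1 : ℕ) : ℝ)) + 1) : ℝ) : ℂ) * u)‖
        ≤ ∑ k ∈ Finset.range M, (1 / ((k : ℝ) + 2) ^ 3) * (l ^ n * Real.exp (l * u.re)) := by
          refine Finset.sum_le_sum fun k _ => ?_
          obtain ⟨q, hq⟩ : ∃ q : ℝ, q = ((k + 1 : ℕ) : ℝ) + 1 := ⟨_, rfl⟩
          have hq2 : q = (k : ℝ) + 2 := by rw [hq]; push_cast; ring
          have hk : (0 : ℝ) ≤ k := Nat.cast_nonneg k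
          have hq1 : 1 ≤ q := by rw [hq2]; linarith
          have hq0 : 0 < q := by linarith
          rw [← hq, ← hq2, norm_mul, norm_mul, norm_pow, Complex.norm_cpow_eq_rpow_re_of_pos hq0,
            Complex.norm_real, Complex.norm_exp]
          have hlog : 0 ≤ Real.log q := Real.log_nonneg hq1
          have h1 : |l - Real.log q| ≤ l * Real.exp (Real.log q / l) := by
            have h2 := Real.add_one_le_exp (Real.log q / l)
            have h3 : 0 ≤ Real.log q / l := by positivity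
            have h4 : Real.log q = l * (Real.log q / l) := by field_simp
            rw [abs_le]
            constructor
            · nlinarith
            · nlinarith
          have h5 : ‖l - Real.log q‖ ^ n ≤ l ^ n * q ^ ((n : ℝ) / l) := by
            rw [Real.norm_eq_abs]
            calc |l - Real.log q| ^ n ≤ (l * Real.exp (Real.log q / l)) ^ n :=
                  pow_le_pow_left₀ (abs_nonneg _) h1 n
              _ = l ^ n * Real.exp (n * (Real.log q / l)) := by rw [mul_pow, ← Real.exp_nat_mul]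
              _ = l ^ n * q ^ ((n : ℝ) / l) := by
                  rw [Real.rpow_def_of_pos hq0]; congr 2; ring
          have h6 : Real.exp ((((l - Real.log q : ℝ) : ℂ) * u).re) = Real.exp (l * u.re) * q ^ (-u.re) := by
            rw [Complex.re_ofReal_mul, sub_mul, sub_eq_add_neg, Real.exp_add, Real.rpow_def_of_pos hq0]
            congr 2
            ring
          rw [h6]
          calc q ^ (-s).re * ‖l - Real.log q‖ ^ n * (Real.exp (l * u.re) * q ^ (-u.re))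
              ≤ q ^ (-s).re * (l ^ n * q ^ ((n : ℝ) / l)) * (Real.exp (l * u.re) * q ^ (-u.re)) := by
                gcongr
            _ = (q ^ (-s).re * q ^ ((n : ℝ) / l) * q ^ (-u.re)) * (l ^ n * Real.exp (l * u.re)) := by ring
            _ = q ^ ((-s).re + (n : ℝ) / l + -u.re) * (l ^ n * Real.exp (l * u.re)) := by
                rw [Real.rpow_add hq0, Real.rpow_add hq0]
            _ ≤ 1 / q ^ 3 * (l ^ n * Real.exp (l * u.re)) := by
                apply mul_le_mul_of_nonneg_right _ (by positivity)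
                rw [one_div, ← Real.rpow_natCast, ← Real.rpow_neg hq0.le]
                apply Real.rpow_le_rpow_of_exponent_le hq1
                rw [add_re] at h
                rw [neg_re]
                push_cast
                linarith
      _ = (∑ k ∈ Finset.range M, (1 / ((k : ℝ) + 2) ^ 3)) * (l ^ n * Real.exp (l * u.re)) := by
          rw [Finset.sum_mul]
      _ ≤ _ := mul_le_mul_of_nonneg_right (sum_cubes M) (by positivity)
  have h7 := norm_sub_norm_le ((l : ℂ) ^ n * cexp (l * u))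
    (-(∑ k ∈ Finset.range M, (((((k + 1 : ℕ) : ℝ)) + 1 : ℝ) : ℂ) ^ (-s) *
      (((l - Real.log ((((k + 1 : ℕ) : ℝ)) + 1) : ℝ) : ℂ)) ^ n *
      cexp (((l - Real.log ((((k + 1 : ℕ) : ℝ)) + 1) : ℝ) : ℂ) * u)))
  rw [norm_neg, sub_neg_eq_add, hmain, add_comm] at h7
  linarith

end Pool.Agent.H875.HD
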