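import Pool.Agent.H875.HD.Base

set_option autoImplicit false

/-!
# Upper bounds
-/

namespace Pool.Agent.H875.HD

open Complex Filter Topology Set
open Pool.Agent.H24R2.JP (XX HH Om be zetaS stir)
open Pool.Agent.Hp428.LS (UBm ub_all HH_pos XX_left XX_sym)
open Pool.Agent.W186.LH (Ex)
open scoped ComplexConjugate

lemma P_le {b x : ℝ} (hb2 : b ≤ 1 / 2) (hx : |x| ≤ 50) : P b x ≤ 51 := by
  unfold P
  have h1 : max |x| b ≤ 51 := max_le (by linarith) (by linarith)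
  have := le_abs_self x
  linarith

theorem gup {b : ℝ} (hb : 0 < b) (hb2 : b ≤ 1 / 2) (h : Ex (1 / 2 + b) 0) (ε : ℝ) (hε : 0 < ε) :
    ∃ T0 : ℝ, 400 ≤ T0 ∧ ∀ T : ℝ, T0 ≤ T → ∀ u : ℂ, ‖u‖ ≤ 50 →
      ‖g T u‖ ≤ Real.exp (Real.log T * (P b u.re + ε)) := by
  have hU := ub_all hb h
  rw [min_eq_left hb2] at hU
  obtain ⟨T1, hT1, h1⟩ := hU ε 50 hε (by norm_num)
  obtain ⟨K, hK, hH⟩ := Pool.Agent.H986R2.K4.hh
  obtain ⟨T2, hT2, h2⟩ := hH 50 (by norm_num)
  refine ⟨max (max T1 T2 + 400) (Real.exp ((51 + ε / 2 + 50 * K) * (2 / ε))), ?_, ?_⟩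
  · refine le_trans ?_ (le_max_left _ _)
    have := le_max_left T1 T2
    linarith
  intro T hT u hu
  have g0 : max T1 T2 + 400 ≤ T := (le_max_left _ _).trans hT
  have g1 : T1 ≤ T - 400 := by have := le_max_left T1 T2; linarith
  have g2 : T2 ≤ T - 400 := by have := le_max_right T1 T2; linarith
  have hT0 : 0 < T := by linarith
  have hL : (51 + ε / 2 + 50 * K) * (2 / ε) ≤ Real.log T := by
    rw [Real.le_log_iff_exp_le hT0]
    exact (le_max_right _ _).trans hT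
  have hx := (abs_re_le_norm u).trans hu
  have hy := (abs_im_le_norm u).trans hu
  obtain ⟨x, hxe⟩ : ∃ x, x = u.re := ⟨_, rfl⟩
  obtain ⟨y, hye⟩ : ∃ y, y = u.im := ⟨_, rfl⟩
  rw [← hxe] at hx ⊢
  rw [← hye] at hy
  have hy' := abs_le.1 hy
  obtain ⟨T', hT'⟩ : ∃ T', T' = T - y := ⟨_, rfl⟩
  have t1 : T1 ≤ T' := by rw [hT']; linarith
  have t2 : T2 ≤ T' := by rw [hT']; linarith
  have t3 : 0 < T' := by rw [hT']; linarith
  have eu : (1 / 2 + I * (T : ℂ) - u) = 1 / 2 + (I * (T' : ℂ) + ((-x : ℝ) : ℂ)) := by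
    rw [hT', hxe, hye]
    apply Complex.ext <;> simp <;> ring
  have hXX : ‖XX (I * (T' : ℂ) + ((-x : ℝ) : ℂ))‖ ≤ Real.exp (Om T' * (max |x| b + ε)) * ‖HH (I * T')‖ := by
    have hbd := h1 T' t1 ((|x| : ℝ) : ℂ) (by simp) (by simpa using hx) (by simp)
    beta_reduce at hbd
    rw [Complex.ofReal_re] at hbd
    refine le_trans (le_of_eq ?_) hbd
    rcases le_total 0 x with h3 | h3
    · rw [abs_of_nonneg h3, XX_left]
    · rw [abs_of_nonpos h3]
  obtain ⟨-, hne, -, hlo, -⟩ := h2 T' ((-x : ℝ) : ℂ) t2 (by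
    rw [Complex.norm_real, Real.norm_eq_abs, abs_neg]; exact hx)
  rw [Complex.ofReal_re] at hlo
  have hz := zetaS.1 (I * T' + ((-x : ℝ) : ℂ)) (by simp; linarith)
  have hHp := HH_pos t3
  have key : ‖g T u‖ ≤ Real.exp (Om T' * (max |x| b + x + ε) + K * 50) := by
    unfold g
    rw [eu]
    rw [hz, norm_mul] at hXX
    have h3 : Real.exp (Om T' * -x - K * 50) * ‖HH (I * T')‖ *
        ‖riemannZeta (1 / 2 + (I * (T' : ℂ) + ((-x : ℝ) : ℂ)))‖ ≤
        Real.exp (Om T' * (max |x| b + ε)) * ‖HH (I * T')‖ :=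
      (mul_le_mul_of_nonneg_right hlo (norm_nonneg _)).trans hXX
    have h4 : Real.exp (Om T' * -x - K * 50) *
        ‖riemannZeta (1 / 2 + (I * (T' : ℂ) + ((-x : ℝ) : ℂ)))‖ ≤
        Real.exp (Om T' * (max |x| b + ε)) := by
      refine le_of_mul_le_mul_right ?_ hHp
      linarith
    have h5 : Real.exp (Om T' * (max |x| b + x + ε) + K * 50) =
        Real.exp (-(Om T' * -x - K * 50)) * Real.exp (Om T' * (max |x| b + ε)) := by
      rw [← Real.exp_add]; congr 1; ring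
    rw [h5, Real.exp_neg, inv_mul_eq_div, le_div_iff₀ (Real.exp_pos _)]
    linarith
  refine key.trans (Real.exp_le_exp.2 ?_)
  have hlT : Real.log T' ≤ Real.log T + 1 := by
    have e1 : T' ≤ T * Real.exp 1 := by
      have := Real.add_one_le_exp (1 : ℝ)
      rw [hT']
      nlinarith
    have := Real.log_le_log t3 e1
    rwa [Real.log_mul hT0.ne' (Real.exp_ne_zero _), Real.log_exp] at this
  have hP1 := P_le hb2 hx
  have hP0 : 0 ≤ P b x := P_nonneg
  have e2 : Om T' * (max |x| b + x + ε) = Real.log T' * (P b x + ε / 2) := by unfold Om P; ring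
  rw [e2]
  have e3 : Real.log T' * (P b x + ε / 2) ≤ (Real.log T + 1) * (P b x + ε / 2) :=
    mul_le_mul_of_nonneg_right hlT (by linarith)
  have e4 : 51 + ε / 2 + 50 * K ≤ Real.log T * (ε / 2) := by
    have e5 : (51 + ε / 2 + 50 * K) = (51 + ε / 2 + 50 * K) * (2 / ε) * (ε / 2) := by field_simp
    rw [e5]
    exact mul_le_mul_of_nonneg_right hL (by linarith)
  nlinarith

end Pool.Agent.H875.HD
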