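import Pool.Agent.H875.HD.Low
import Pool.Agent.H875.HD.Up

set_option autoImplicit false

/-!
# High derivatives of zeta: lower bounds on the left, upper bounds
-/

namespace Pool.Agent.H875.HD

open Complex Filter Topology Set Metric
open Pool.Agent.W186.LH (Ex)
open scoped ComplexConjugate

lemma g_at {T : ℝ} {u : ℂ} (hT : 50 < T) (hu : ‖u‖ ≤ 50) : (1 / 2 + I * (T : ℂ) - u) ≠ 1 := by
  intro h
  have h1 := congrArg Complex.im h
  have h2 := (abs_le.1 ((abs_im_le_norm u).trans hu)).2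
  simp at h1
  linarith

lemma g_diffAt {T : ℝ} {u : ℂ} (hT : 50 < T) (hu : ‖u‖ ≤ 50) : DifferentiableAt ℂ (g T) u := by
  have h1 := differentiableAt_riemannZeta (g_at hT hu)
  have h2 : DifferentiableAt ℂ (fun u : ℂ => 1 / 2 + I * (T : ℂ) - u) u := by fun_prop
  exact DifferentiableAt.comp u h1 h2

lemma g_diff {T r : ℝ} {u : ℂ} (hT : 50 < T) (hu : ‖u‖ + r ≤ 50) : DifferentiableOn ℂ (g T) (closedBall u r) := by
  intro w hw
  apply DifferentiableAt.differentiableWithinAt
  apply g_diffAt hT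
  rw [mem_closedBall, dist_eq_norm] at hw
  have := norm_add_le (w - u) u
  rw [sub_add_cancel] at this
  linarith

lemma g_an {T : ℝ} {u : ℂ} (hT : 50 < T) (hu : ‖u‖ < 50) : AnalyticAt ℂ (g T) u := by
  have h : DifferentiableOn ℂ (g T) (ball 0 50) := fun w hw =>
    (g_diffAt hT (by rw [mem_ball_zero_iff] at hw; exact hw.le)).differentiableWithinAt
  exact h.analyticAt (isOpen_ball.mem_nhds (by rw [mem_ball_zero_iff]; exact hu))

theorem glow : ∃ K T0 : ℝ, 1 ≤ K ∧ 400 ≤ T0 ∧ ∀ T : ℝ, T0 ≤ T → ∀ n : ℕ, 1 ≤ n → (n : ℝ) ≤ 2 * Real.log T →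
    ∀ u : ℂ, ‖u‖ ≤ 45 → (n : ℝ) / Real.log T + 3 ≤ u.re →
      Real.exp (-K) * (Real.log T ^ n * Real.exp (Real.log T * u.re)) ≤ ‖iteratedDeriv n (g T) u‖ := by
  obtain ⟨K, T1, hK, hT1, h1⟩ := fe_right
  obtain ⟨τ, hτ⟩ : ∃ τ : ℕ → ℝ, τ = fun M => ∑' m : ℕ, (1 : ℝ) / ((((m + (M + 1) : ℕ)) : ℝ) + 1) ^ (3 : ℕ) := ⟨_, rfl⟩
  have hτ0 : Tendsto τ atTop (𝓝 0) := by rw [hτ]; exact tail_lim
  have hτn : ∀ M, 0 ≤ τ M := by
    intro M; rw [hτ]; exact tsum_nonneg fun m => by positivity
  have htail : ∀ (M : ℕ) (s : ℂ), 3 ≤ s.re →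
      ‖riemannZeta s - ∑ m ∈ Finset.range (M + 1), 1 / ((m : ℂ) + 1) ^ s‖ ≤ τ M := by
    intro M s hs; rw [hτ]; exact tail_bd M s hs
  -- for large T
  have hev : ∀ᶠ T : ℝ in atTop, 8 * K + 4 ≤ Real.log T ∧
      Real.exp 1 * (2 * Real.log T) * ((1 + τ 0) * (K / T)) ≤ 1 / 8 := by
    refine (Real.tendsto_log_atTop.eventually_ge_atTop _).and ?_
    have h2 : Tendsto (fun T : ℝ => Real.exp 1 * 2 * (1 + τ 0) * K * (Real.log T / T)) atTop (𝓝 0) := by
      have h3 : Tendsto (fun T : ℝ => Real.log T / T) atTop (𝓝 0) :=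
        Real.isLittleO_log_id_atTop.tendsto_div_nhds_zero
      have := h3.const_mul (Real.exp 1 * 2 * (1 + τ 0) * K)
      rwa [mul_zero] at this
    filter_upwards [h2.eventually_le_const (show (0 : ℝ) < 1 / 8 by norm_num)] with T hT
    refine le_trans (le_of_eq ?_) hT
    ring
  obtain ⟨T2, hT2⟩ := eventually_atTop.1 hev
  refine ⟨50 * K + 1, max (max T1 T2) 400, by linarith, le_max_right _ _, ?_⟩
  intro T hT n hn hnL u hu hure
  have g1 : T1 ≤ T := ((le_max_left _ _).trans (le_max_left _ _)).trans hT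
  have g2 : T2 ≤ T := ((le_max_right _ _).trans (le_max_left _ _)).trans hT
  have g3 : 400 ≤ T := (le_max_right _ _).trans hT
  have hT0 : 0 < T := by linarith
  obtain ⟨hL4, hsm⟩ := hT2 T g2
  obtain ⟨X0, l, hX0, hl, hfe⟩ := h1 T g1
  obtain ⟨L, hL⟩ : ∃ L, L = Real.log T := ⟨_, rfl⟩
  rw [← hL] at hL4 hsm hl hnL hure ⊢
  have hl' := abs_le.1 hl
  have hl0 : 0 < l := by linarith
  have hL0 : 0 < L := by linarith
  have hn0 : (0 : ℝ) < n := by exact_mod_cast hn
  -- n / l
  have hnl : (n : ℝ) / l ≤ n / L + 1 / 2 := by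
    have a1 : (n : ℝ) * (L - l) ≤ n * K := mul_le_mul_of_nonneg_left (by linarith) hn0.le
    have a2 : (n : ℝ) * K ≤ 2 * L * K := mul_le_mul_of_nonneg_right hnL (by linarith)
    have a3 : L * (4 * K) ≤ L * l := mul_le_mul_of_nonneg_left (by linarith) hL0.le
    rw [div_add' _ _ _ hL0.ne', div_le_div_iff₀ hl0 hL0]
    nlinarith
  have hnl2 : (n : ℝ) / l ≤ 5 / 2 := by
    have : (n : ℝ) / L ≤ 2 := by rw [div_le_iff₀ hL0]; linarith
    linarith
  have hu5 : (n : ℝ) / l + 5 / 2 ≤ u.re := by linarith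
  have hnl0 : 0 < (n : ℝ) / l := by positivity
  obtain ⟨s, hs⟩ : ∃ s : ℂ, s = 1 / 2 - I * T := ⟨_, rfl⟩
  have hsre : s.re = 1 / 2 := by rw [hs]; simp
  -- choose M
  obtain ⟨M, hM⟩ : ∃ M : ℕ, Real.exp 1 * n * τ M ≤ 1 / 8 := by
    have h2 : Tendsto (fun M : ℕ => Real.exp 1 * n * τ M) atTop (𝓝 0) := by
      have := hτ0.const_mul (Real.exp 1 * n)
      rwa [mul_zero] at this
    exact (h2.eventually_le_const (show (0 : ℝ) < 1 / 8 by norm_num)).exists
  have hball : ∀ w ∈ closedBall u ((n : ℝ) / l), ‖w‖ ≤ 50 ∧ 5 / 2 ≤ w.re ∧ w.re ≤ u.re + n / l := by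
    intro w hw
    rw [mem_closedBall, dist_eq_norm] at hw
    have h2 := norm_add_le (w - u) u
    rw [sub_add_cancel] at h2
    have h3 := abs_le.1 ((abs_re_le_norm (w - u)).trans hw)
    rw [sub_re] at h3
    refine ⟨by linarith, by linarith, by linarith⟩
  -- the difference
  obtain ⟨D, hD⟩ : ∃ D : ℂ → ℂ, D = fun w => g T w - X0 * pS l s M w := ⟨_, rfl⟩
  have hDd : DifferentiableOn ℂ D (closedBall u (n / l)) := by
    rw [hD]
    exact (g_diff (by linarith) (by linarith)).sub (((pS_diff l s M).const_mul X0).differentiableOn)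
  have hDb : ∀ w ∈ sphere u ((n : ℝ) / l), ‖D w‖ ≤ Real.exp n *
      (Real.exp (l * u.re) * (τ M + (1 + τ 0) * (K / T))) := by
    intro w hw
    obtain ⟨w1, w2, w3⟩ := hball w (sphere_subset_closedBall hw)
    obtain ⟨E, hE, hge⟩ := hfe w w1
    have hz : conj (riemannZeta (1 / 2 + I * T + conj w)) = riemannZeta (s + w) := by
      rw [← riemannZeta_conj]
      congr 1
      rw [hs]
      apply Complex.ext <;> simp
    have hsw : 3 ≤ (s + w).re := by rw [add_re, hsre]; linarith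
    have t1 := htail M (s + w) hsw
    have t0 := htail 0 (s + w) hsw
    have hzb : ‖riemannZeta (s + w)‖ ≤ 1 + τ 0 := by
      have e : ∑ m ∈ Finset.range (0 + 1), 1 / ((m : ℂ) + 1) ^ (s + w) = 1 := by simp
      rw [e] at t0
      have := norm_add_le (riemannZeta (s + w) - 1) 1
      rw [sub_add_cancel, norm_one] at this
      linarith
    have e1 : D w = X0 * cexp (l * w) * ((riemannZeta (s + w) -
        ∑ m ∈ Finset.range (M + 1), 1 / ((m : ℂ) + 1) ^ (s + w)) + riemannZeta (s + w) * E) := by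
      rw [hD]
      beta_reduce
      rw [hge, hz, pS_eq]
      ring
    rw [e1, norm_mul, norm_mul, hX0, one_mul]
    have e2 : ‖cexp (l * w)‖ ≤ Real.exp n * Real.exp (l * u.re) := by
      rw [Complex.norm_exp, Complex.re_ofReal_mul, ← Real.exp_add]
      apply Real.exp_le_exp.2
      have : l * w.re ≤ l * (u.re + n / l) := mul_le_mul_of_nonneg_left w3 hl0.le
      have e : l * (u.re + n / l) = n + l * u.re := by field_simp; ring
      linarith
    have e3 : ‖(riemannZeta (s + w) -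
        ∑ m ∈ Finset.range (M + 1), 1 / ((m : ℂ) + 1) ^ (s + w)) + riemannZeta (s + w) * E‖ ≤
        τ M + (1 + τ 0) * (K / T) := by
      refine (norm_add_le _ _).trans (add_le_add t1 ?_)
      rw [norm_mul]
      exact mul_le_mul hzb hE (norm_nonneg _) (by linarith [hτn 0])
    calc _ ≤ (Real.exp n * Real.exp (l * u.re)) * (τ M + (1 + τ 0) * (K / T)) :=
          mul_le_mul e2 e3 (norm_nonneg _) (by positivity)
      _ = _ := by ring
  have hcau := cau hn hl0 hDd hDb
  have hp := pS_low hl0 s M n u (by rw [add_re, hsre]; linarith)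
  have hga : AnalyticAt ℂ (g T) u := g_an (by linarith) (by linarith)
  have hpa : AnalyticAt ℂ (fun w => X0 * pS l s M w) u :=
    ((pS_diff l s M).const_mul X0).analyticAt u
  have hsub : iteratedDeriv n D u = iteratedDeriv n (g T) u - X0 * iteratedDeriv n (pS l s M) u := by
    rw [hD]
    have h2 := iteratedDeriv_fun_sub (n := n) (x := u) (f := g T) (g := fun w => X0 * pS l s M w)
      hga.contDiffAt hpa.contDiffAt
    rw [h2]
    congr 1
    exact iteratedDeriv_const_mul_field X0 (pS l s M)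
  rw [hsub] at hcau
  have h5 : ‖iteratedDeriv n (pS l s M) u‖ ≤ ‖iteratedDeriv n (g T) u‖ +
      Real.exp 1 * n * l ^ n * (Real.exp (l * u.re) * (τ M + (1 + τ 0) * (K / T))) := by
    have h6 := norm_sub_norm_le (X0 * iteratedDeriv n (pS l s M) u) (iteratedDeriv n (g T) u)
    rw [norm_mul, hX0, one_mul, norm_sub_rev] at h6
    linarith
  have hW : 0 < l ^ n * Real.exp (l * u.re) := by positivity
  have h7 : Real.exp 1 * n * l ^ n * (Real.exp (l * u.re) * (τ M + (1 + τ 0) * (K / T))) ≤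
      1 / 4 * (l ^ n * Real.exp (l * u.re)) := by
    have h8 : Real.exp 1 * n * ((1 + τ 0) * (K / T)) ≤ 1 / 8 := by
      refine le_trans ?_ hsm
      have : 0 ≤ (1 + τ 0) * (K / T) := by
        have := hτn 0
        positivity
      gcongr
    have h9 : Real.exp 1 * n * (τ M + (1 + τ 0) * (K / T)) ≤ 1 / 4 := by
      rw [mul_add]; linarith
    calc _ = (Real.exp 1 * n * (τ M + (1 + τ 0) * (K / T))) * (l ^ n * Real.exp (l * u.re)) := by ring
      _ ≤ _ := mul_le_mul_of_nonneg_right h9 hW.le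
  have h10 : 1 / 2 * (l ^ n * Real.exp (l * u.re)) ≤ ‖iteratedDeriv n (g T) u‖ := by linarith
  refine le_trans ?_ h10
  -- from l to L
  have hKL : K / L ≤ 1 / 4 := by rw [div_le_iff₀ hL0]; linarith
  have hKL0 : 0 ≤ K / L := by positivity
  have h11 : Real.exp (-(4 * K)) * L ^ n ≤ l ^ n := by
    have h12 : Real.exp (-(2 * (K / L))) * L ≤ l := by
      have h13 : Real.exp (-(2 * (K / L))) ≤ 1 - K / L := by
        have h14 := Real.add_one_le_exp (2 * (K / L))
        rw [Real.exp_neg, inv_le_comm₀ (Real.exp_pos _) (by linarith)]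
        refine le_trans ?_ h14
        rw [inv_le_comm₀ (by linarith) (by linarith)] 
        rw [inv_le_comm₀ (by linarith) (by linarith)]
        rw [inv_eq_one_div, div_le_iff₀ (by linarith)]
        nlinarith
      calc Real.exp (-(2 * (K / L))) * L ≤ (1 - K / L) * L := mul_le_mul_of_nonneg_right h13 hL0.le
        _ = L - K := by field_simp
        _ ≤ l := by linarith
    calc Real.exp (-(4 * K)) * L ^ n ≤ Real.exp (n * (-(2 * (K / L)))) * L ^ n := by
          apply mul_le_mul_of_nonneg_right _ (by positivity)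
          apply Real.exp_le_exp.2
          have h15 : (n : ℝ) * (K / L) ≤ 2 * K := by
            calc (n : ℝ) * (K / L) ≤ (2 * L) * (K / L) := mul_le_mul_of_nonneg_right hnL hKL0
              _ = 2 * K := by field_simp
          linarith
      _ = (Real.exp (-(2 * (K / L))) * L) ^ n := by rw [mul_pow, ← Real.exp_nat_mul]
      _ ≤ l ^ n := pow_le_pow_left₀ (by positivity) h12 n
  have hure0 : 0 ≤ u.re := by linarith
  have hure45 : u.re ≤ 45 := (le_abs_self _).trans ((abs_re_le_norm u).trans hu)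
  have h16 : Real.exp (-(45 * K)) * Real.exp (L * u.re) ≤ Real.exp (l * u.re) := by
    rw [← Real.exp_add]
    apply Real.exp_le_exp.2
    nlinarith
  have h17 : Real.exp (-(50 * K + 1)) ≤ 1 / 2 * Real.exp (-(4 * K)) * Real.exp (-(45 * K)) := by
    have h18 : Real.exp (-1) ≤ 1 / 2 := by
      rw [Real.exp_neg, inv_le_comm₀ (Real.exp_pos _) (by norm_num)]
      have := Real.add_one_le_exp (1 : ℝ)
      linarith
    calc Real.exp (-(50 * K + 1)) ≤ Real.exp (-1 + (-(4 * K) + -(45 * K))) := by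
          apply Real.exp_le_exp.2; linarith
      _ = Real.exp (-1) * (Real.exp (-(4 * K)) * Real.exp (-(45 * K))) := by rw [Real.exp_add, Real.exp_add]
      _ ≤ 1 / 2 * (Real.exp (-(4 * K)) * Real.exp (-(45 * K))) :=
          mul_le_mul_of_nonneg_right h18 (by positivity)
      _ = _ := by ring
  calc Real.exp (-(50 * K + 1)) * (L ^ n * Real.exp (L * u.re))
      ≤ (1 / 2 * Real.exp (-(4 * K)) * Real.exp (-(45 * K))) * (L ^ n * Real.exp (L * u.re)) :=
        mul_le_mul_of_nonneg_right h17 (by positivity)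
    _ = 1 / 2 * ((Real.exp (-(4 * K)) * L ^ n) * (Real.exp (-(45 * K)) * Real.exp (L * u.re))) := by ring
    _ ≤ 1 / 2 * (l ^ n * Real.exp (l * u.re)) := by
        apply mul_le_mul_of_nonneg_left _ (by norm_num)
        exact mul_le_mul h11 h16 (by positivity) (by positivity)

/-- the upper bound which corresponds to it -/
theorem gder_up {b : ℝ} (hb : 0 < b) (hb2 : b ≤ 1 / 2) (h : Ex (1 / 2 + b) 0) (ε : ℝ) (hε : 0 < ε) :
    ∃ T0 : ℝ, 400 ≤ T0 ∧ ∀ T : ℝ, T0 ≤ T → ∀ n : ℕ, 1 ≤ n → (n : ℝ) ≤ 2 * Real.log T →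
      ∀ u : ℂ, ‖u‖ ≤ 45 → b ≤ u.re + n / Real.log T →
      ‖iteratedDeriv n (g T) u‖ ≤ Real.log T ^ n * Real.exp (Real.log T * (u.re + ε)) := by
  obtain ⟨T1, hT1, h1⟩ := gup hb hb2 h (ε / 2) (by linarith)
  have hev : ∀ᶠ T : ℝ in atTop, Real.exp 1 * (2 * Real.log T) ≤ Real.exp (Real.log T * (ε / 2)) := by
    have h2 : ∀ᶠ x : ℝ in atTop, Real.exp 1 * (2 * x) ≤ Real.exp (x * (ε / 2)) := by
      have h3 : Tendsto (fun x : ℝ => Real.exp x / x ^ 1) atTop atTop :=
        Real.tendsto_exp_div_pow_atTop 1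
      have h4 : Tendsto (fun x : ℝ => x * (ε / 2)) atTop atTop :=
        tendsto_id.atTop_mul_const (by linarith)
      filter_upwards [(h3.comp h4).eventually_ge_atTop (Real.exp 1 * 2 / (ε / 2)), eventually_gt_atTop 0] with x hx hx0
      simp only [Function.comp, pow_one] at hx
      rw [div_le_div_iff₀ (by linarith) (by positivity)] at hx
      have : Real.exp 1 * 2 * (x * (ε / 2)) = (Real.exp 1 * (2 * x)) * (ε / 2) := by ring
      rw [this] at hx
      exact le_of_mul_le_mul_right hx (by linarith)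
    exact Real.tendsto_log_atTop.eventually h2
  obtain ⟨T2, hT2⟩ := eventually_atTop.1 hev
  refine ⟨max T1 T2, hT1.trans (le_max_left _ _), ?_⟩
  intro T hT n hn hnL u hu hub
  have g1 : T1 ≤ T := (le_max_left _ _).trans hT
  have g2 := hT2 T ((le_max_right _ _).trans hT)
  have hLp : 0 < Real.log T := Real.log_pos (by linarith)
  obtain ⟨L, hL⟩ : ∃ L, L = Real.log T := ⟨_, rfl⟩
  rw [← hL] at hLp hnL hub g2 ⊢
  have hn0 : (0 : ℝ) < n := by exact_mod_cast hn
  have hnl2 : (n : ℝ) / L ≤ 2 := by rw [div_le_iff₀ hLp]; linarith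
  have hcau := cau (f := g T) (u0 := u) hn hLp (C := Real.exp (L * (u.re + ε / 2)))
    (g_diff (by linarith) (by linarith)) (by
      intro w hw
      have hw' := sphere_subset_closedBall hw
      rw [mem_closedBall, dist_eq_norm] at hw'
      have h2 := norm_add_le (w - u) u
      rw [sub_add_cancel] at h2
      have h3 := abs_le.1 ((abs_re_le_norm (w - u)).trans hw')
      rw [sub_re] at h3
      refine (h1 T g1 w (by linarith)).trans ?_
      rw [← hL, ← Real.exp_add]
      apply Real.exp_le_exp.2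
      have h4 : P b w.re ≤ u.re + n / L := by
        rw [← P_right hb.le hub]
        exact P_mono (by linarith)
      have h5 : L * (P b w.re + ε / 2) ≤ L * (u.re + n / L + ε / 2) := by gcongr
      have h6 : L * (u.re + n / L + ε / 2) = n + L * (u.re + ε / 2) := by field_simp; ring
      linarith)
  refine hcau.trans ?_
  have h7 : Real.exp 1 * n ≤ Real.exp (L * (ε / 2)) := by
    refine le_trans ?_ g2
    gcongr
  calc Real.exp 1 * n * L ^ n * Real.exp (L * (u.re + ε / 2))
      ≤ Real.exp (L * (ε / 2)) * L ^ n * Real.exp (L * (u.re + ε / 2)) := by gcongr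
    _ = L ^ n * (Real.exp (L * (ε / 2)) * Real.exp (L * (u.re + ε / 2))) := by ring
    _ = _ := by rw [← Real.exp_add]; congr 2; ring

/-- a crude bound -/
theorem gder_crude : ∃ T0 : ℝ, 400 ≤ T0 ∧ ∀ T : ℝ, T0 ≤ T → ∀ n : ℕ, 1 ≤ n → (n : ℝ) ≤ 2 * Real.log T →
      ∀ u : ℂ, ‖u‖ ≤ 45 →
      ‖iteratedDeriv n (g T) u‖ ≤ Real.log T ^ n * Real.exp (Real.log T * 60) := by
  have hEx : Ex (1 / 2 + 1 / 2) 0 := Pool.Agent.Hp428.LS.ex_big le_rfl
  obtain ⟨T1, hT1, h1⟩ := gup (b := 1 / 2) (by norm_num) le_rfl hEx 1 one_pos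
  refine ⟨max T1 (Real.exp 10), hT1.trans (le_max_left _ _), ?_⟩
  intro T hT n hn hnL u hu
  have g1 : T1 ≤ T := (le_max_left _ _).trans hT
  have hT0 : 0 < T := by linarith
  have hLp : 10 ≤ Real.log T := by
    rw [Real.le_log_iff_exp_le hT0]; exact (le_max_right _ _).trans hT
  obtain ⟨L, hL⟩ : ∃ L, L = Real.log T := ⟨_, rfl⟩
  rw [← hL] at hLp hnL ⊢
  have hL0 : 0 < L := by linarith
  have hn0 : (0 : ℝ) < n := by exact_mod_cast hn
  have hnl2 : (n : ℝ) / L ≤ 2 := by rw [div_le_iff₀ hL0]; linarith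
  have hcau := cau (f := g T) (u0 := u) hn hL0 (C := Real.exp (L * 52))
    (g_diff (by linarith) (by linarith)) (by
      intro w hw
      have hw' := sphere_subset_closedBall hw
      rw [mem_closedBall, dist_eq_norm] at hw'
      have h2 := norm_add_le (w - u) u
      rw [sub_add_cancel] at h2
      have hw50 : ‖w‖ ≤ 50 := by linarith
      refine (h1 T g1 w hw50).trans ?_
      rw [← hL, ← Real.exp_add]
      apply Real.exp_le_exp.2
      have h4 : P (1 / 2) w.re ≤ 51 := P_le le_rfl ((abs_re_le_norm w).trans hw50)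
      nlinarith)
  refine hcau.trans ?_
  have h7 : Real.exp 1 * n ≤ Real.exp (L * 8) := by
    have h8 := Real.add_one_le_exp (L * 7)
    calc Real.exp 1 * n ≤ Real.exp L * Real.exp (L * 7) := by
          apply mul_le_mul (Real.exp_le_exp.2 (by linarith)) _ hn0.le (Real.exp_pos _).le
          linarith
      _ = _ := by rw [← Real.exp_add]; congr 1; ring
  calc Real.exp 1 * n * L ^ n * Real.exp (L * 52)
      ≤ Real.exp (L * 8) * L ^ n * Real.exp (L * 52) := by gcongr
    _ = L ^ n * (Real.exp (L * 8) * Real.exp (L * 52)) := by ring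
    _ = _ := by rw [← Real.exp_add]; congr 2; ring

end Pool.Agent.H875.HD
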