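import Pool.Agent.H875.HD.Tay

set_option autoImplicit false

/-!
# Few zeros on the left give bounds for the derivatives
-/

namespace Pool.Agent.H875.HD

open Complex Filter Topology Set Metric
open Pool.Agent.W186.LH (Ex sabZ)
open scoped ComplexConjugate

lemma lognear {T T' A : ℝ} (hA : 0 ≤ A) (hT : 400 + 2 * A ≤ T) (h : |T' - T| ≤ A) :
    |Real.log T' - Real.log T| ≤ 1 := by
  have ht := abs_le.1 h
  have hT0 : 0 < T := by linarith
  have hT'0 : 0 < T' := by linarith
  rw [abs_le]
  constructor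
  · have h2 : T * Real.exp (-1) ≤ T' := by
      have h3 : Real.exp (-1) ≤ 1 / 2 := by
        rw [Real.exp_neg, inv_le_comm₀ (Real.exp_pos _) (by norm_num)]
        have := Real.add_one_le_exp (1 : ℝ)
        linarith
      nlinarith
    have h4 := Real.log_le_log (by positivity) h2
    rw [Real.log_mul hT0.ne' (Real.exp_ne_zero _), Real.log_exp] at h4
    linarith
  · have h2 : T' ≤ T * Real.exp 1 := by
      have := Real.add_one_le_exp (1 : ℝ)
      nlinarith
    have h4 := Real.log_le_log hT'0 h2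
    rw [Real.log_mul hT0.ne' (Real.exp_ne_zero _), Real.log_exp] at h4
    linarith

theorem line_of_few (η : ℝ) (hη : 0 < η) (hη1 : η ≤ 3 / 4) : ∃ ε T0 : ℝ, 0 < ε ∧ 500 ≤ T0 ∧
    ∀ T : ℝ, T0 ≤ T → ∀ n : ℕ, 1 ≤ n → (n : ℝ) ≤ Real.log T →
      (∀ T' : ℝ, |T' - T| ≤ 15 → ∀ S : Finset ℂ, (∀ s ∈ S, iteratedDeriv n riemannZeta s = 0 ∧
        |s.im - T'| ≤ 1 ∧ -10 ≤ s.re ∧ s.re ≤ 1 / 2 - η / 4) →
        ∑ s ∈ S, (analyticOrderNatAt (iteratedDeriv n riemannZeta) s : ℝ) ≤ ε * Real.log T') →
      ‖iteratedDeriv n (g T) (η : ℂ)‖ ≤ Real.log T ^ n * Real.exp (Real.log T * (η + η)) := by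
  obtain ⟨ε1, hε1, hsab⟩ := sabZ (η / 3) (η / 2) 61 (by linarith) (by linarith) (by linarith) (by norm_num)
  obtain ⟨K, T1, hK, hT1, h1⟩ := glow
  obtain ⟨T2, hT2, h2⟩ := gder_up (b := 1 / 2) (by norm_num) le_rfl (Pool.Agent.Hp428.LS.ex_big le_rfl)
    (ε1 / 2) (by linarith)
  obtain ⟨T3, hT3, h3⟩ := fac_near
  obtain ⟨T4, hT4, h4⟩ := gder_crude
  refine ⟨ε1 / 62, max (max (max T1 T2) (max T3 T4)) (max 500 (Real.exp ((K + 2) / (min ε1 (min η 1) / 2)))),
    by positivity, (le_max_left _ _).trans (le_max_right _ _), ?_⟩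
  intro T hT n hn hnL hfew
  have g12 := (le_max_left (max (max T1 T2) (max T3 T4)) _).trans hT
  have g1 : T1 ≤ T := ((le_max_left _ _).trans (le_max_left _ _)).trans g12
  have g2 : T2 ≤ T := ((le_max_right _ _).trans (le_max_left _ _)).trans g12
  have g3 : T3 ≤ T := ((le_max_left _ _).trans (le_max_right _ _)).trans g12
  have g4 : T4 ≤ T := ((le_max_right _ _).trans (le_max_right _ _)).trans g12
  have g56 := (le_max_right (max (max T1 T2) (max T3 T4)) _).trans hT
  have g5 : 500 ≤ T := (le_max_left _ _).trans g56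
  have g6 : Real.exp ((K + 2) / (min ε1 (min η 1) / 2)) ≤ T := (le_max_right _ _).trans g56
  have hT50 : 50 < T := by linarith
  have hT0 : 0 < T := by linarith
  obtain ⟨m, hm⟩ : ∃ m : ℝ, m = min ε1 (min η 1) := ⟨_, rfl⟩
  have hm0 : 0 < m := by rw [hm]; exact lt_min hε1 (lt_min hη one_pos)
  have hm1 : m ≤ ε1 := by rw [hm]; exact min_le_left _ _
  have hm2 : m ≤ η := by rw [hm]; exact (min_le_right _ _).trans (min_le_left _ _)
  have hm3 : m ≤ 1 := by rw [hm]; exact (min_le_right _ _).trans (min_le_right _ _)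
  rw [← hm] at g6
  have hLb : (K + 2) / (m / 2) ≤ Real.log T := by rwa [Real.le_log_iff_exp_le hT0]
  rw [div_le_iff₀ (by positivity)] at hLb
  have hL0 : 0 < Real.log T := by
    by_contra hcon
    push Not at hcon
    nlinarith
  have hL2 : 2 ≤ Real.log T := by nlinarith
  have hLε : K + 2 ≤ ε1 / 2 * Real.log T := by nlinarith
  have hLη : K + 2 ≤ η / 2 * Real.log T := by nlinarith
  have hL1 : K + 2 ≤ 1 / 2 * Real.log T := by nlinarith
  have hnL2 : (n : ℝ) ≤ 2 * Real.log T := by linarith
  have lowT := h1 T g1 n hn hnL2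
  have upT := h2 T g2 n hn hnL2
  have facT := h3 T g3 n hnL2
  have crT := h4 T g4 n hn hnL2
  have hc1 : (n : ℝ) / Real.log T ≤ 1 := by rw [div_le_iff₀ hL0]; linarith
  have hc0 : 0 < (n : ℝ) / Real.log T := by
    have : (0 : ℝ) < n := by exact_mod_cast hn
    positivity
  have h3z : ∀ z ∈ closedBall (5 : ℂ) 5, ‖3 * z‖ ≤ 30 ∧ 0 ≤ (3 * z).re ∧ |(3 * z).im| ≤ 15 ∧
      (3 * z).re = 3 * z.re := by
    intro z hz
    rw [mem_closedBall, dist_eq_norm] at hz
    have n5 : ‖(5 : ℂ)‖ = 5 := by norm_num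
    have a1 := norm_add_le (z - 5) 5
    rw [sub_add_cancel, n5] at a1
    have a2 := (abs_le.1 ((abs_re_le_norm (z - 5)).trans hz)).1
    have e2 : (z - 5).re = z.re - 5 := by simp
    rw [e2] at a2
    have a3 := (abs_im_le_norm (z - 5)).trans hz
    have e3 : (z - 5).im = z.im := by simp
    rw [e3] at a3
    have e4 : (3 * z).re = 3 * z.re := by simp
    have e5 : (3 * z).im = 3 * z.im := by simp
    refine ⟨?_, ?_, ?_, e4⟩
    · rw [norm_mul]
      have : ‖(3 : ℂ)‖ = 3 := by norm_num
      rw [this]; linarith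
    · rw [e4]; linarith
    · rw [e5, abs_mul, abs_of_pos (by norm_num : (0 : ℝ) < 3)]; linarith
  have hpp : ∀ u : ℂ, 0 < Real.log T ^ n * Real.exp (Real.log T * u.re) := fun u => by positivity
  have hlow : ∀ u : ℂ, ‖u‖ ≤ 45 → 4 ≤ u.re → Real.exp (-(K + 1)) ≤ ‖F T n u‖ := by
    intro u hu hure
    rw [F_norm hT50 n (by linarith) hL0]
    have f1 := (facT u (by linarith)).1
    have f2 := lowT u hu (by linarith)
    have f3 : Real.exp (-K) ≤ ‖iteratedDeriv n (g T) u‖ / (Real.log T ^ n * Real.exp (Real.log T * u.re)) := by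
      rw [le_div_iff₀ (hpp u)]; exact f2
    have f4 : Real.exp (-(K + 1)) ≤ 1 / 2 * Real.exp (-K) := by
      have : Real.exp (-1) ≤ 1 / 2 := by
        rw [Real.exp_neg, inv_le_comm₀ (Real.exp_pos _) (by norm_num)]
        have := Real.add_one_le_exp (1 : ℝ)
        linarith
      calc Real.exp (-(K + 1)) = Real.exp (-1) * Real.exp (-K) := by rw [← Real.exp_add]; congr 1; ring
        _ ≤ _ := mul_le_mul_of_nonneg_right this (Real.exp_pos _).le
    exact f4.trans (mul_le_mul f1 f3 (Real.exp_pos _).le (by positivity))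
  have hWne : ∃ s, W n s ≠ 0 := by
    have h5 := hlow 5 (by norm_num) (by norm_num)
    refine ⟨-1 * 5 + (1 / 2 + I * T), fun h0 => ?_⟩
    have : F T n 5 = 0 := by unfold F; rw [h0, zero_mul]
    rw [this, norm_zero] at h5
    exact absurd h5 (not_le.2 (Real.exp_pos _))
  have two_exp : ∀ y : ℝ, 1 ≤ y → 2 ≤ Real.exp y := by
    intro y hy
    have := Real.add_one_le_exp y
    linarith
  have key := hsab (Real.log T) (fun z => F T n (3 * z)) hL0
    ((F_diff T n).comp (by fun_prop : Differentiable ℂ fun z : ℂ => 3 * z))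
    (by
      intro z hz
      obtain ⟨z1, z2, -, -⟩ := h3z z hz
      rw [F_norm hT50 n (by linarith) hL0]
      have f1 := (facT (3 * z) (by linarith)).2
      have f2 := crT (3 * z) (by linarith)
      have f3 : ‖iteratedDeriv n (g T) (3 * z)‖ / (Real.log T ^ n * Real.exp (Real.log T * (3 * z).re)) ≤
          Real.exp (Real.log T * 60) := by
        rw [div_le_iff₀ (hpp _)]
        refine f2.trans ?_
        rw [mul_comm (Real.exp (Real.log T * 60)), mul_assoc]
        apply mul_le_mul_of_nonneg_left _ (by positivity)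
        rw [← Real.exp_add]
        apply Real.exp_le_exp.2
        have : 0 ≤ Real.log T * (3 * z).re := mul_nonneg hL0.le z2
        linarith
      calc _ ≤ 2 * Real.exp (Real.log T * 60) := mul_le_mul f1 f3 (div_nonneg (norm_nonneg _) (hpp _).le) (by norm_num)
        _ ≤ Real.exp (Real.log T) * Real.exp (Real.log T * 60) :=
            mul_le_mul_of_nonneg_right (two_exp _ (by linarith)) (Real.exp_pos _).le
        _ = Real.exp (61 * Real.log T) := by rw [← Real.exp_add]; congr 1; ring)
    (by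
      intro z hz
      obtain ⟨z1, -, -, z4⟩ := h3z z (closedBall_subset_closedBall (by norm_num) hz)
      rw [mem_closedBall, dist_eq_norm] at hz
      have a2 := (abs_le.1 ((abs_re_le_norm (z - 5)).trans hz)).1
      have e2 : (z - 5).re = z.re - 5 := by simp
      rw [e2] at a2
      have hre : 9 / 2 ≤ (3 * z).re := by rw [z4]; linarith
      constructor
      · refine le_trans ?_ (hlow (3 * z) (by linarith) (by linarith))
        apply Real.exp_le_exp.2
        linarith
      · rw [F_norm hT50 n (by linarith) hL0]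
        have f1 := (facT (3 * z) (by linarith)).2
        have f2 := upT (3 * z) (by linarith) (by linarith)
        have f3 : ‖iteratedDeriv n (g T) (3 * z)‖ / (Real.log T ^ n * Real.exp (Real.log T * (3 * z).re)) ≤
            Real.exp (Real.log T * (ε1 / 2)) := by
          rw [div_le_iff₀ (hpp _)]
          refine f2.trans (le_of_eq ?_)
          rw [mul_add, Real.exp_add]
          ring
        calc _ ≤ 2 * Real.exp (Real.log T * (ε1 / 2)) :=
              mul_le_mul f1 f3 (div_nonneg (norm_nonneg _) (hpp _).le) (by norm_num)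
          _ ≤ Real.exp (ε1 / 2 * Real.log T) * Real.exp (Real.log T * (ε1 / 2)) :=
              mul_le_mul_of_nonneg_right (two_exp _ (by linarith)) (Real.exp_pos _).le
          _ = Real.exp (ε1 * Real.log T) := by rw [← Real.exp_add]; congr 1; ring)
    (by
      intro S hS
      classical
      obtain ⟨S', hS'⟩ : ∃ S' : Finset ℂ, S' = S.image fun z => 1 / 2 + I * T - 3 * z := ⟨_, rfl⟩
      have hinj : Set.InjOn (fun z : ℂ => 1 / 2 + I * T - 3 * z) S := fun a _ b _ hab => by
        have h : (1 / 2 + I * (T : ℂ) - 3 * a) = 1 / 2 + I * T - 3 * b := hab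
        linear_combination -(1 / 3) * h
      have hz5 : ∀ z ∈ S, z ∈ closedBall (5 : ℂ) 5 := fun z hz =>
        closedBall_subset_closedBall (by linarith) (hS z hz).2
      have hsum : ∑ z ∈ S, (analyticOrderNatAt (fun z => F T n (3 * z)) z : ℝ) =
          ∑ s ∈ S', (analyticOrderNatAt (iteratedDeriv n riemannZeta) s : ℝ) := by
        rw [hS', Finset.sum_image hinj]
        refine Finset.sum_congr rfl fun z hz => ?_
        rw [F_ord hT50 n (u := 3 * z) (by linarith [(h3z z (hz5 z hz)).1]) hWne (by norm_num) rfl]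
      rw [hsum]
      have hS'p : ∀ s ∈ S', iteratedDeriv n riemannZeta s = 0 ∧ |s.im - T| ≤ 15 ∧ -10 ≤ s.re ∧
          s.re ≤ 1 / 2 - η / 4 := by
        intro s hs
        rw [hS', Finset.mem_image] at hs
        obtain ⟨z, hz, rfl⟩ := hs
        obtain ⟨z1, z2, z3, z4⟩ := h3z z (hz5 z hz)
        obtain ⟨s1, s2⟩ := hS z hz
        rw [mem_closedBall, dist_eq_norm] at s2
        have a2 := (abs_le.1 ((abs_re_le_norm (z - 5)).trans s2)).1
        have e2 : (z - 5).re = z.re - 5 := by simp
        rw [e2] at a2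
        have r1 : (1 / 2 + I * (T : ℂ) - 3 * z).re = 1 / 2 - 3 * z.re := by simp
        have r2 : (1 / 2 + I * (T : ℂ) - 3 * z).im = T - 3 * z.im := by simp
        refine ⟨(F_zero hT50 n (by linarith)).1 s1, ?_, ?_, ?_⟩
        · rw [r2]
          have : T - 3 * z.im - T = -(3 * z).im := by simp
          rw [this, abs_neg]; exact z3
        · rw [r1]
          by_contra hcon
          push Not at hcon
          have h5 := hlow (3 * z) (by linarith) (by rw [z4]; linarith)
          have s1' : F T n (3 * z) = 0 := s1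
          rw [s1', norm_zero] at h5
          exact absurd h5 (not_le.2 (Real.exp_pos _))
        · rw [r1]; linarith
      have hcov := cover (fun s => (analyticOrderNatAt (iteratedDeriv n riemannZeta) s : ℝ))
        (fun s => Nat.cast_nonneg _) S' T 15 1 (ε1 / 62 * (2 * Real.log T)) (by norm_num) one_pos
        (fun s hs => (hS'p s hs).2.1) (by
          intro T' hT' S'' hS'' hS2
          have h6 := hfew T' hT' S'' (fun s hs => by
            obtain ⟨p1, -, p3, p4⟩ := hS'p s (hS'' hs)
            exact ⟨p1, hS2 s hs, p3, p4⟩)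
          refine h6.trans ?_
          have h7 := (abs_le.1 (lognear (A := 15) (by norm_num) (by linarith) hT')).2
          gcongr
          linarith)
      refine hcov.trans (le_of_eq ?_)
      have h8 : ⌊(2 * 15 / 1 : ℝ)⌋₊ = 30 := by norm_num
      rw [h8]
      push_cast
      ring)
    ((η / 3 : ℝ) : ℂ) (by
      rw [mem_closedBall, dist_eq_norm]
      have e : (((η / 3 : ℝ) : ℂ) - 5) = ((η / 3 - 5 : ℝ) : ℂ) := by push_cast; ring
      rw [e, Complex.norm_real, Real.norm_eq_abs, abs_of_nonpos (by linarith)]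
      linarith)
  beta_reduce at key
  have e3 : (3 : ℂ) * ((η / 3 : ℝ) : ℂ) = (η : ℂ) := by push_cast; ring
  rw [e3] at key
  have hηn : ‖(η : ℂ)‖ = η := by rw [Complex.norm_real, Real.norm_of_nonneg hη.le]
  rw [F_norm hT50 n (by linarith) hL0] at key
  have f1 := (facT (η : ℂ) (by linarith)).1
  obtain ⟨q, hq⟩ : ∃ q : ℝ, q = ‖iteratedDeriv n (g T) (η : ℂ)‖ / (Real.log T ^ n * Real.exp (Real.log T * (η : ℂ).re)) :=
    ⟨_, rfl⟩
  rw [← hq] at key
  have hq0 : 0 ≤ q := by rw [hq]; exact div_nonneg (norm_nonneg _) (hpp _).le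
  have h9 : q ≤ Real.exp (Real.log T * η) := by
    have h10 : 1 / 2 * q ≤ Real.exp (η / 2 * Real.log T) := (mul_le_mul_of_nonneg_right f1 hq0).trans key
    calc q ≤ 2 * Real.exp (η / 2 * Real.log T) := by linarith
      _ ≤ Real.exp (η / 2 * Real.log T) * Real.exp (η / 2 * Real.log T) :=
          mul_le_mul_of_nonneg_right (two_exp _ (by linarith)) (Real.exp_pos _).le
      _ = _ := by rw [← Real.exp_add]; congr 1; ring
  rw [hq, div_le_iff₀ (hpp _), Complex.ofReal_re] at h9
  refine h9.trans (le_of_eq ?_)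
  rw [mul_add, Real.exp_add]
  ring

end Pool.Agent.H875.HD
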