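import Pool.Agent.H875.HD.Jen

set_option autoImplicit false

/-!
# Bounds for the derivatives of high order give bounds for zeta
-/

namespace Pool.Agent.H875.HD

open Complex Filter Topology Set Metric
open Pool.Agent.W186.LH (Ex Ex_of)
open scoped ComplexConjugate

lemma tay {r1 T L a η x ρ' ε : ℝ} (hr1 : 0 < r1) (hr2 : r1 ≤ 1 / 2) (hT : 50 < T) (hL : 0 < L)
    (hup : ∀ u : ℂ, ‖u‖ ≤ 50 → ‖g T u‖ ≤ Real.exp (L * (P r1 u.re + ε)))
    (hmid : ∀ n : ℕ, a * L ≤ n → (n : ℝ) ≤ L → ‖iteratedDeriv n (g T) (η : ℂ)‖ ≤ L ^ n * Real.exp (L * (η + ε)))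
    (h0 : 0 ≤ η) (h01 : η ≤ 1) (hρ' : 0 < ρ') (hρ : ρ' ≤ x - η) (hρ2 : x - η ≤ 1 / 2)
    (hcond : a * Real.log ((x - η) / ρ') + P r1 (η + ρ') ≤ x) :
    ‖g T (x : ℂ)‖ ≤ (L + 4) * Real.exp (L * (x + ε)) := by
  obtain ⟨ρ, hρe⟩ : ∃ ρ, ρ = x - η := ⟨_, rfl⟩
  rw [← hρe] at hρ hρ2 hcond
  have hρ0 : 0 < ρ := by linarith
  have hηn : ‖(η : ℂ)‖ = η := by rw [Complex.norm_real, Real.norm_of_nonneg h0]
  have hsphere : ∀ R : ℝ, 0 < R → R ≤ 2 → ∀ n : ℕ,
      ‖iteratedDeriv n (g T) (η : ℂ)‖ ≤ n.factorial * Real.exp (L * (P r1 (η + R) + ε)) / R ^ n := by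
    intro R hR hR2 n
    refine Complex.norm_iteratedDeriv_le_of_forall_mem_sphere_norm_le n hR
      ((g_diff hT (u := (η : ℂ)) (r := R) (by linarith)).diffContOnCl_ball subset_rfl) ?_
    intro w hw
    rw [mem_sphere, dist_eq_norm] at hw
    have h2 := norm_add_le (w - η) (η : ℂ)
    rw [sub_add_cancel] at h2
    refine (hup w (by linarith)).trans (Real.exp_le_exp.2 ?_)
    apply mul_le_mul_of_nonneg_left _ hL.le
    have h3 := (abs_le.1 ((abs_re_le_norm (w - η)).trans hw.le)).2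
    rw [sub_re, ofReal_re] at h3
    have := P_mono (b := r1) (show w.re ≤ η + R by linarith)
    linarith
  have hser := Complex.hasSum_taylorSeries_on_ball (f := g T) (c := (η : ℂ)) (r := 2)
    (fun w hw => by
      have hw' : ‖w - η‖ < 2 := by
        have := hw
        rw [mem_ball, dist_eq_norm] at this
        exact_mod_cast this
      have h2 := norm_add_le (w - η) (η : ℂ)
      rw [sub_add_cancel] at h2
      exact (g_diffAt hT (by linarith)).differentiableWithinAt)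
    (z := (x : ℂ)) (by
      rw [mem_ball, dist_eq_norm, ← Complex.ofReal_sub, Complex.norm_real, Real.norm_eq_abs, ← hρe,
        abs_of_pos hρ0]
      push_cast
      linarith)
  obtain ⟨f, hf⟩ : ∃ f : ℕ → ℂ, f = fun n : ℕ => ((n.factorial : ℂ))⁻¹ • ((x : ℂ) - η) ^ n • iteratedDeriv n (g T) (η : ℂ) :=
    ⟨_, rfl⟩
  rw [← hf] at hser
  have hfn : ∀ n, ‖f n‖ = ρ ^ n * ‖iteratedDeriv n (g T) (η : ℂ)‖ / n.factorial := by
    intro n
    rw [hf]
    simp only [norm_smul, norm_inv, norm_pow]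
    rw [← Complex.ofReal_sub, ← hρe, Complex.norm_real, Real.norm_of_nonneg hρ0.le, Complex.norm_natCast]
    ring
  obtain ⟨m0, hm0⟩ : ∃ m0 : ℕ, m0 = ⌊L⌋₊ + 1 := ⟨_, rfl⟩
  have hm0L : L ≤ m0 := by rw [hm0]; push_cast; exact (Nat.lt_floor_add_one L).le
  have hm0L' : (m0 : ℝ) ≤ L + 1 := by
    rw [hm0]; push_cast
    have := Nat.floor_le hL.le
    linarith
  obtain ⟨Q, hQ⟩ : ∃ Q : ℝ, Q = Real.exp (L * (x + ε)) := ⟨_, rfl⟩
  have hQ0 : 0 < Q := by rw [hQ]; exact Real.exp_pos _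
  -- the first terms
  have hfirst : ∀ n ∈ Finset.range m0, ‖f n‖ ≤ Q + Real.exp (L * (η + ε)) * ((L * ρ) ^ n / n.factorial) := by
    intro n hn
    rw [Finset.mem_range, hm0, Nat.lt_succ_iff] at hn
    have hnL : (n : ℝ) ≤ L := by
      have h2 : (n : ℝ) ≤ ⌊L⌋₊ := by exact_mod_cast hn
      exact h2.trans (Nat.floor_le hL.le)
    have hfp : (0 : ℝ) < n.factorial := by exact_mod_cast n.factorial_pos
    rw [hfn]
    rcases le_or_gt (a * L) n with h1 | h1
    · have h2 := hmid n h1 hnL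
      have h3 : ρ ^ n * ‖iteratedDeriv n (g T) (η : ℂ)‖ / n.factorial ≤
          Real.exp (L * (η + ε)) * ((L * ρ) ^ n / n.factorial) := by
        calc ρ ^ n * ‖iteratedDeriv n (g T) (η : ℂ)‖ / n.factorial
            ≤ ρ ^ n * (L ^ n * Real.exp (L * (η + ε))) / n.factorial := by gcongr
          _ = _ := by rw [mul_pow]; ring
      linarith
    · have h2 := hsphere ρ' hρ' (by linarith) n
      have h3 : ρ ^ n * ‖iteratedDeriv n (g T) (η : ℂ)‖ / n.factorial ≤ Q := by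
        calc ρ ^ n * ‖iteratedDeriv n (g T) (η : ℂ)‖ / n.factorial
            ≤ ρ ^ n * (n.factorial * Real.exp (L * (P r1 (η + ρ') + ε)) / ρ' ^ n) / n.factorial := by gcongr
          _ = (ρ / ρ') ^ n * Real.exp (L * (P r1 (η + ρ') + ε)) := by
              rw [div_pow]
              field_simp
          _ = Real.exp (n * Real.log (ρ / ρ')) * Real.exp (L * (P r1 (η + ρ') + ε)) := by
              rw [Real.exp_nat_mul, Real.exp_log (by positivity)]
          _ = Real.exp (n * Real.log (ρ / ρ') + L * (P r1 (η + ρ') + ε)) := by rw [Real.exp_add]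
          _ ≤ Q := by
              rw [hQ]
              apply Real.exp_le_exp.2
              have h4 : 0 ≤ Real.log (ρ / ρ') := Real.log_nonneg (by rwa [le_div_iff₀ hρ', one_mul])
              have h5 : (n : ℝ) * Real.log (ρ / ρ') ≤ (a * L) * Real.log (ρ / ρ') :=
                mul_le_mul_of_nonneg_right h1.le h4
              nlinarith
      have h4 : 0 ≤ Real.exp (L * (η + ε)) * ((L * ρ) ^ n / n.factorial) := by positivity
      linarith
  -- the last terms
  have hlast : ∀ n : ℕ, ‖f (n + m0)‖ ≤ Real.exp (L * (η + 1 + ε)) * (ρ ^ m0 * ρ ^ n) := by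
    intro n
    rw [hfn]
    have hfp : (0 : ℝ) < (n + m0).factorial := by exact_mod_cast (n + m0).factorial_pos
    have h2 := hsphere 1 one_pos (by norm_num) (n + m0)
    rw [one_pow, div_one, P_right hr1.le (by linarith : r1 ≤ η + 1)] at h2
    calc ρ ^ (n + m0) * ‖iteratedDeriv (n + m0) (g T) (η : ℂ)‖ / (n + m0).factorial
        ≤ ρ ^ (n + m0) * ((n + m0).factorial * Real.exp (L * (η + 1 + ε))) / (n + m0).factorial := by gcongr
      _ = _ := by rw [pow_add]; field_simp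
  have hsplit := hser.summable.sum_add_tsum_nat_add m0
  rw [hser.tsum_eq] at hsplit
  rw [← hsplit]
  refine (norm_add_le _ _).trans ?_
  have hA : ‖∑ i ∈ Finset.range m0, f i‖ ≤ (L + 1) * Q + Q := by
    refine (norm_sum_le _ _).trans ((Finset.sum_le_sum hfirst).trans ?_)
    rw [Finset.sum_add_distrib, Finset.sum_const, Finset.card_range, nsmul_eq_mul, ← Finset.mul_sum]
    have h1 := Real.sum_le_exp_of_nonneg (x := L * ρ) (by positivity) m0
    have h2 : Real.exp (L * (η + ε)) * ∑ i ∈ Finset.range m0, (L * ρ) ^ i / i.factorial ≤ Q := by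
      calc _ ≤ Real.exp (L * (η + ε)) * Real.exp (L * ρ) := mul_le_mul_of_nonneg_left h1 (Real.exp_pos _).le
        _ = Q := by rw [← Real.exp_add, hQ]; congr 1; rw [hρe]; ring
    have h3 : (m0 : ℝ) * Q ≤ (L + 1) * Q := mul_le_mul_of_nonneg_right hm0L' hQ0.le
    linarith
  have hB : ‖∑' i : ℕ, f (i + m0)‖ ≤ 2 * Q := by
    have hgeo : HasSum (fun n : ℕ => Real.exp (L * (η + 1 + ε)) * (ρ ^ m0 * ρ ^ n))
        (Real.exp (L * (η + 1 + ε)) * (ρ ^ m0 * (1 - ρ)⁻¹)) :=
      ((hasSum_geometric_of_lt_one hρ0.le (by linarith)).mul_left _).mul_left _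
    refine (tsum_of_norm_bounded hgeo hlast).trans ?_
    have h1 : (1 - ρ)⁻¹ ≤ 2 := by
      rw [inv_le_comm₀ (by linarith) (by norm_num)]
      linarith
    have h2 : ρ ^ m0 ≤ Real.exp (L * (ρ - 1)) := by
      have h3 : Real.log ρ ≤ ρ - 1 := Real.log_le_sub_one_of_pos hρ0
      have h4 : ρ ^ m0 = Real.exp (m0 * Real.log ρ) := by rw [Real.exp_nat_mul, Real.exp_log hρ0]
      rw [h4]
      apply Real.exp_le_exp.2
      have h5 : Real.log ρ ≤ 0 := by linarith
      have h6 : (m0 : ℝ) * Real.log ρ ≤ L * Real.log ρ := mul_le_mul_of_nonpos_right hm0L h5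
      have h7 : L * Real.log ρ ≤ L * (ρ - 1) := mul_le_mul_of_nonneg_left h3 hL.le
      linarith
    calc Real.exp (L * (η + 1 + ε)) * (ρ ^ m0 * (1 - ρ)⁻¹)
        ≤ Real.exp (L * (η + 1 + ε)) * (Real.exp (L * (ρ - 1)) * 2) := by
          apply mul_le_mul_of_nonneg_left _ (Real.exp_pos _).le
          exact mul_le_mul h2 h1 (by rw [inv_nonneg]; linarith) (Real.exp_pos _).le
      _ = 2 * (Real.exp (L * (η + 1 + ε)) * Real.exp (L * (ρ - 1))) := by ring
      _ = 2 * Q := by rw [← Real.exp_add, hQ]; congr 2; rw [hρe]; ring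
  rw [← hQ]
  linarith

/-- from the left to the right of the critical line -/
theorem ex_of_g {x : ℝ} (hx : 0 ≤ x) (hx50 : x ≤ 50) (h : ∀ ε : ℝ, 0 < ε → ∃ T0 : ℝ, ∀ T : ℝ, T0 ≤ T →
    ‖g T (x : ℂ)‖ ≤ Real.exp (Real.log T * (x + ε))) : Ex (1 / 2 + x) 0 := by
  refine Ex_of _ _ le_rfl fun ε hε => ?_
  obtain ⟨T1, h1⟩ := h (ε / 2) (by linarith)
  obtain ⟨K, T2, hK, hT2, h2⟩ := fe_right
  refine ⟨max (max T1 T2) (max (2 * K) (Real.exp ((1 + K * x) * (2 / ε)))), fun T hT => ?_⟩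
  have g1 : T1 ≤ T := ((le_max_left _ _).trans (le_max_left _ _)).trans hT
  have g2 : T2 ≤ T := ((le_max_right _ _).trans (le_max_left _ _)).trans hT
  have g3 : 2 * K ≤ T := ((le_max_left _ _).trans (le_max_right _ _)).trans hT
  have g4 : Real.exp ((1 + K * x) * (2 / ε)) ≤ T := ((le_max_right _ _).trans (le_max_right _ _)).trans hT
  have hT0 : 0 < T := by linarith
  have hLb : (1 + K * x) * (2 / ε) ≤ Real.log T := by rwa [Real.le_log_iff_exp_le hT0]
  have hLb' : 1 + K * x ≤ Real.log T * (ε / 2) := by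
    calc 1 + K * x = (1 + K * x) * (2 / ε) * (ε / 2) := by field_simp
      _ ≤ _ := mul_le_mul_of_nonneg_right hLb (by linarith)
  obtain ⟨X0, l, hX0, hl, hfe⟩ := h2 T g2
  obtain ⟨E, hE, hge⟩ := hfe (x : ℂ) (by rw [Complex.norm_real, Real.norm_of_nonneg hx]; exact hx50)
  have hb := h1 T g1
  rw [hge, norm_mul, norm_mul, norm_mul, hX0, one_mul, Complex.norm_conj, Complex.conj_ofReal,
    Complex.norm_exp] at hb
  have e1 : ((l : ℂ) * (x : ℂ)).re = l * x := by rw [← Complex.ofReal_mul, Complex.ofReal_re]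
  have e2 : (1 / 2 + I * (T : ℂ) + (x : ℂ)) = ((1 / 2 + x : ℝ) : ℂ) + T * I := by push_cast; ring
  rw [e1, e2] at hb
  have hE2 : 1 / 2 ≤ ‖1 + E‖ := by
    have h3 : K / T ≤ 1 / 2 := by rw [div_le_iff₀ hT0]; linarith
    have := norm_sub_norm_le (1 : ℂ) (-E)
    rw [norm_one, norm_neg, sub_neg_eq_add] at this
    linarith
  obtain ⟨Z, hZ⟩ : ∃ Z : ℝ, Z = ‖riemannZeta (((1 / 2 + x : ℝ) : ℂ) + T * I)‖ := ⟨_, rfl⟩
  rw [← hZ] at hb ⊢
  have hZ0 : 0 ≤ Z := by rw [hZ]; exact norm_nonneg _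
  have hb2 : Real.exp (l * x) * Z * (1 / 2) ≤ Real.exp (Real.log T * (x + ε / 2)) :=
    (mul_le_mul_of_nonneg_left hE2 (by positivity)).trans hb
  have hl' := (abs_le.1 hl).1
  have h3 : Real.exp (Real.log T * x - K * x) ≤ Real.exp (l * x) := by
    apply Real.exp_le_exp.2
    nlinarith
  have h4 : Real.exp (Real.log T * x - K * x) * Z ≤ 2 * Real.exp (Real.log T * (x + ε / 2)) := by
    have : Real.exp (Real.log T * x - K * x) * Z ≤ Real.exp (l * x) * Z := mul_le_mul_of_nonneg_right h3 hZ0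
    linarith
  have h5 : Z ≤ Real.exp (Real.log T * ε) := by
    have h6 : (2 : ℝ) ≤ Real.exp 1 := by
      have := Real.add_one_le_exp (1 : ℝ)
      linarith
    calc Z = Real.exp (-(Real.log T * x - K * x)) * (Real.exp (Real.log T * x - K * x) * Z) := by
          rw [← mul_assoc, ← Real.exp_add, neg_add_cancel, Real.exp_zero, one_mul]
      _ ≤ Real.exp (-(Real.log T * x - K * x)) * (Real.exp 1 * Real.exp (Real.log T * (x + ε / 2))) := by
          apply mul_le_mul_of_nonneg_left _ (Real.exp_pos _).le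
          exact h4.trans (mul_le_mul_of_nonneg_right h6 (Real.exp_pos _).le)
      _ = Real.exp (1 + K * x + Real.log T * (ε / 2)) := by
          rw [← Real.exp_add, ← Real.exp_add]; congr 1; ring
      _ ≤ Real.exp (Real.log T * ε) := by
          apply Real.exp_le_exp.2
          linarith
  rw [zero_add, Real.rpow_def_of_pos hT0]
  exact h5

end Pool.Agent.H875.HD
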